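import Pool.Agent.Lib.MP_ebddb6_al.Hyp

set_option linter.unusedSectionVars false

namespace Pool.Agent.Lib.MP_ebddb6_al

/-- a family of quasi-convex sets with groups translating far along them -/
structure Fam (Γ X Y : Type*) [Group Γ] [PseudoMetricSpace X] [MulAction Γ X] [MulAction Γ Y]
    (θ L : ℝ) where
  A : Y → Set X
  R : Y → Subgroup Γ
  A_smul : ∀ (γ : Γ) {v x}, x ∈ A v → γ • x ∈ A (γ • v)
  R_conj : ∀ (γ : Γ) {v r}, r ∈ R v → γ * r * γ⁻¹ ∈ R (γ • v)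
  R_fix : ∀ {v r}, r ∈ R v → r • v = v
  nonempty : ∀ v, (A v).Nonempty
  qc : ∀ v, QC θ (A v)
  overlap : ∀ u v, u ≠ v → ∃ p ∈ A v, ∀ z ∈ A u, ∀ y ∈ A v, gp z y p ≤ θ
  trans : ∀ {v r}, r ∈ R v → r ≠ 1 → ∀ x ∈ A v, L ≤ dist x (r • x)

section Bey

variable {Γ Y Ω : Type*} [Group Γ] [MulAction Γ Y] [MulAction Γ Ω]

/-- the elements reached by a reduced word with first letter in `R v` -/
inductive Bey (R : Y → Subgroup Γ) (Vn : Set Y) (base : Y → Ω → Prop) : Y → Ω → Prop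
  | base {v : Y} {r : Γ} {z : Ω} : v ∈ Vn → r ∈ R v → r ≠ 1 → base v z → Bey R Vn base v (r • z)
  | step {v v' : Y} {r : Γ} {t : Ω} : v ∈ Vn → r ∈ R v → r ≠ 1 → v' ≠ v → Bey R Vn base v' t →
      Bey R Vn base v (r • t)

variable {R : Y → Subgroup Γ} {Vn : Set Y} {base : Y → Ω → Prop}

lemma Bey.mem {v : Y} {t : Ω} (h : Bey R Vn base v t) : v ∈ Vn := by
  cases h <;> assumption

lemma Bey.smul_G {w : Γ} (hR : ∀ {v r}, r ∈ R v → w * r * w⁻¹ ∈ R (w • v))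
    (hV : ∀ v ∈ Vn, w • v ∈ Vn) (hb : ∀ v z, base v z → base (w • v) (w • z)) {v : Y} {t : Ω}
    (h : Bey R Vn base v t) : Bey R Vn base (w • v) (w • t) := by
  have e : ∀ (r : Γ) (z : Ω), w • r • z = (w * r * w⁻¹) • w • z := by
    intro r z; simp [mul_smul]
  have ne : ∀ r : Γ, r ≠ 1 → w * r * w⁻¹ ≠ 1 := by
    intro r hr h; apply hr; simpa using h
  induction h with
  | base hv hr h1 hz => rw [e]; exact Bey.base (hV _ hv) (hR hr) (ne _ h1) (hb _ _ hz)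
  | step hv hr h1 hne _ ih =>
    rw [e]
    exact Bey.step (hV _ hv) (hR hr) (ne _ h1) (fun h => hne (MulAction.injective w h)) ih

lemma bey_closed {Core : Set Ω} {G : Subgroup Γ}
    (hR : ∀ (w : Γ) {v r}, r ∈ R v → w * r * w⁻¹ ∈ R (w • v))
    (hV : ∀ w ∈ G, ∀ v ∈ Vn, w • v ∈ Vn) (hb : ∀ w ∈ G, ∀ v z, base v z → base (w • v) (w • z))
    (hC : ∀ w ∈ G, ∀ z ∈ Core, w • z ∈ Core) (hbC : ∀ v z, base v z → z ∈ Core)
    (hCb : ∀ v ∈ Vn, ∀ r ∈ R v, ∀ z ∈ Core, base v z ∨ r • z ∈ Core) {γ : Γ}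
    (hγ : γ ∈ Subgroup.closure ((G : Set Γ) ∪ {r | ∃ v ∈ Vn, r ∈ R v})) :
    ∀ t, (t ∈ Core ∨ ∃ v, Bey R Vn base v t) → (γ • t ∈ Core ∨ ∃ v, Bey R Vn base v (γ • t)) := by
  have gen : ∀ γ ∈ (G : Set Γ) ∪ {r | ∃ v ∈ Vn, r ∈ R v}, ∀ t,
      (t ∈ Core ∨ ∃ v, Bey R Vn base v t) → (γ • t ∈ Core ∨ ∃ v, Bey R Vn base v (γ • t)) := by
    rintro γ (hγ | ⟨v, hv, hγ⟩) t ht
    · rcases ht with ht | ⟨v, ht⟩
      · exact Or.inl (hC γ hγ t ht)
      · exact Or.inr ⟨_, Bey.smul_G (R := R) (fun h => hR γ h) (hV γ hγ) (hb γ hγ) ht⟩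
    · by_cases h1 : γ = 1
      · rw [h1, one_smul]; exact ht
      rcases ht with ht | ⟨v', ht⟩
      · rcases hCb v hv γ hγ t ht with h | h
        · exact Or.inr ⟨v, Bey.base hv hγ h1 h⟩
        · exact Or.inl h
      · by_cases h2 : v' = v
        · subst h2
          cases ht with
          | @base _ r z _ hr _ hz =>
            rw [← mul_smul]
            by_cases h3 : γ * r = 1
            · rw [h3, one_smul]; exact Or.inl (hbC _ _ hz)
            · exact Or.inr ⟨v', Bey.base hv ((R v').mul_mem hγ hr) h3 hz⟩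
          | @step _ v'' r t' _ hr _ hne ht' =>
            rw [← mul_smul]
            by_cases h3 : γ * r = 1
            · rw [h3, one_smul]; exact Or.inr ⟨_, ht'⟩
            · exact Or.inr ⟨v', Bey.step hv ((R v').mul_mem hγ hr) h3 hne ht'⟩
        · exact Or.inr ⟨v, Bey.step hv hγ h1 h2 ht⟩
  induction hγ using Subgroup.closure_induction'' with
  | one => intro t ht; rwa [one_smul]
  | mem x hx => exact gen x hx
  | inv_mem x hx =>
    refine gen x⁻¹ ?_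
    rcases hx with hx | ⟨v, hv, hx⟩
    · exact Or.inl (G.inv_mem hx)
    · exact Or.inr ⟨v, hv, (R v).inv_mem hx⟩
  | mul x y _ _ hx hy => intro t ht; rw [mul_smul]; exact hx _ (hy t ht)

lemma Bey.exists_smul {H : Subgroup Γ} (hH : ∀ v ∈ Vn, R v ≤ H) {v : Y} {t : Ω}
    (h : Bey R Vn base v t) : ∃ γ ∈ H, ∃ v' z, base v' z ∧ t = γ • z := by
  induction h with
  | base hv hr _ hz => exact ⟨_, hH _ hv hr, _, _, hz, rfl⟩
  | step hv hr _ _ _ ih =>
    obtain ⟨γ, hγ, v', z, hz, rfl⟩ := ih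
    exact ⟨_, H.mul_mem (hH _ hv hr) hγ, v', z, hz, (mul_smul _ _ _).symm⟩

end Bey

variable {Γ X Y : Type*} [Group Γ] [PseudoMetricSpace X] [MulAction Γ X] [IsIsometricSMul Γ X]
  [MulAction Γ Y] {θ L : ℝ}

lemma gp_smul_left (γ : Γ) (x y w : X) : gp (γ • x) y (γ • w) = gp x (γ⁻¹ • y) w := by
  rw [← gp_smul γ x (γ⁻¹ • y) w, smul_inv_smul]

namespace Fam

variable (F : Fam Γ X Y θ L)

lemma R_smul {v : Y} {r : Γ} (hr : r ∈ F.R v) {x : X} (hx : x ∈ F.A v) : r • x ∈ F.A v := by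
  have := F.A_smul r hx
  rwa [F.R_fix hr] at this

lemma A_inv (γ : Γ) {v : Y} {x : X} (hx : x ∈ F.A (γ • v)) : γ⁻¹ • x ∈ F.A v := by
  have := F.A_smul γ⁻¹ hx
  rwa [inv_smul_smul] at this

/-- the conclusion of the Greendlinger lemma -/
def Green (o : X) (γ : Γ) : Prop :=
  ∃ v, ∃ p ∈ F.A v, ∃ q ∈ F.A v, (∀ y ∈ F.A v, gp o y p ≤ 48 * θ) ∧
    (∀ y ∈ F.A v, gp (γ • o) y q ≤ 48 * θ) ∧ L ≤ dist p q

/-- a windmill -/
structure Mill (o : X) (W : Set X) (V : Set Y) (G : Subgroup Γ) : Prop where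
  base : o ∈ W
  invW : ∀ γ ∈ G, ∀ x ∈ W, γ • x ∈ W
  invV : ∀ γ ∈ G, ∀ v ∈ V, γ • v ∈ V
  qc : QC (21 * θ) W
  gate : ∀ u ∉ V, ∃ p ∈ F.A u, ∀ z ∈ W, ∀ y ∈ F.A u, gp z y p ≤ 18 * θ
  le : ∀ v ∈ V, F.R v ≤ G
  green : ∀ γ ∈ G, γ ≠ 1 → F.Green o γ

lemma mill_zero (hθ : 0 < θ) (o : X) : F.Mill o {o} ∅ ⊥ where
  base := rfl
  invW := by
    intro γ hγ x hx
    rw [Subgroup.mem_bot.1 hγ, one_smul]; exact hx
  invV := by simp
  qc := by
    rintro x y rfl y' rfl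
    refine ⟨_, rfl, ?_⟩
    rw [gp_self, dist_comm]; linarith
  gate := by
    intro u _
    obtain ⟨p, hp, h⟩ := (F.qc u).exists_gate (F.nonempty u) hθ o
    refine ⟨p, hp, ?_⟩
    rintro z rfl y hy
    linarith [h y hy]
  le := by simp
  green := fun γ hγ h => absurd (Subgroup.mem_bot.1 hγ) h

lemma mill_step (hθ : 0 < θ) (hL : 1000 * θ ≤ L) (hyp : Hyp X θ) (geo : Geo X) {o : X} {W : Set X}
    {V : Set Y} {G : Subgroup Γ} (M : F.Mill o W V G) :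
    ∃ W' V' G', F.Mill o W' V' G' ∧ (∀ x, (∃ w ∈ W, dist x w ≤ θ) → x ∈ W') ∧
      ∀ v, (∃ z ∈ F.A v, z ∈ W) → v ∈ V' := by
  classical
  set Wp : Set X := {x | ∃ w ∈ W, dist x w ≤ 21 * θ} with hWp
  have hWpqc : QC (3 * θ) Wp := M.qc.nbhd geo hyp hθ (by linarith)
  have hWsub : ∀ x ∈ W, x ∈ Wp := fun x hx => ⟨x, hx, by rw [dist_self]; linarith⟩
  have hWpinv : ∀ γ ∈ G, ∀ x ∈ Wp, γ • x ∈ Wp := by
    rintro γ hγ x ⟨w, hw, h⟩
    exact ⟨γ • w, M.invW γ hγ w hw, by rwa [dist_smul]⟩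
  set Vn : Set Y := {v | v ∉ V ∧ ∃ z ∈ F.A v, ∃ w ∈ Wp, dist z w ≤ 6 * θ} with hVn
  have hVninv : ∀ γ ∈ G, ∀ v ∈ Vn, γ • v ∈ Vn := by
    rintro γ hγ v ⟨hv, z, hz, w, hw, h⟩
    refine ⟨fun h' => hv ?_, γ • z, F.A_smul γ hz, γ • w, hWpinv γ hγ w hw, by rwa [dist_smul]⟩
    have := M.invV γ⁻¹ (G.inv_mem hγ) _ h'
    rwa [inv_smul_smul] at this
  let base : Y → X → Prop := fun v z => z ∈ Wp ∨ ∃ u ∈ Vn, u ≠ v ∧ z ∈ F.A u
  set B : Set X := {z | z ∈ Wp ∨ ∃ u ∈ Vn, z ∈ F.A u} with hB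
  have hbB : ∀ v z, base v z → z ∈ B := by
    rintro v z (h | ⟨u, h1, _, h2⟩)
    · exact Or.inl h
    · exact Or.inr ⟨u, h1, h2⟩
  have hBb : ∀ v, ∀ z ∈ B, base v z ∨ z ∈ F.A v := by
    rintro v z (h | ⟨u, h1, h2⟩)
    · exact Or.inl (Or.inl h)
    · by_cases h3 : u = v
      · exact Or.inr (h3 ▸ h2)
      · exact Or.inl (Or.inr ⟨u, h1, h3, h2⟩)
  -- extending a gate from `Wp` to the touching axes
  have hext : ∀ (v : Y) (p : X) (c : ℝ), p ∈ F.A v → (∀ z ∈ Wp, ∀ y ∈ F.A v, gp z y p ≤ c) →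
      ∀ z, base v z → ∀ y ∈ F.A v, gp z y p ≤ c + 8 * θ := by
    rintro v p c hp h z (hz | ⟨u, ⟨_, z0, hz0, w, hw, hzw⟩, hne, hz⟩) y hy
    · linarith [h z hz y hy]
    · obtain ⟨g, hg, hg'⟩ := F.overlap u v hne
      have h1 : gp z0 g p ≤ c + 6 * θ := by linarith [gp_lip_left z0 w g p, h w hw g hg]
      have h2 := dist_le_of_gates h1 (hg' z0 hz0 p hp)
      linarith [gp_lip_base z y p g, hg' z hz y hy]
  have hL1 : ∀ v ∈ Vn, ∃ p ∈ F.A v, ∀ z, base v z → ∀ y ∈ F.A v, gp z y p ≤ 47 * θ := by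
    intro v hv
    obtain ⟨p, hp, h⟩ := M.gate v hv.1
    refine ⟨p, hp, fun z hz y hy => ?_⟩
    have := hext v p (39 * θ) hp (by
      rintro z ⟨w, hw, hzw⟩ y hy
      linarith [gp_lip_left z w y p, h w hw y hy]) z hz y hy
    linarith
  have : Nonempty X := ⟨o⟩
  choose! P hP1 hP2 using hL1
  have hL2 : ∀ u, u ∉ V → u ∉ Vn → ∃ p ∈ F.A u, ∀ z ∈ B, ∀ y ∈ F.A u, gp z y p ≤ 15 * θ := by
    intro u hu hu'
    obtain ⟨p, hp, h⟩ := (F.qc u).exists_gate (F.nonempty u) hθ o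
    refine ⟨p, hp, fun z hz y hy => ?_⟩
    have := hext u p (7 * θ) hp (by
      intro z hz y hy
      obtain ⟨p', hp', h'⟩ := (F.qc u).exists_gate (F.nonempty u) hθ z
      have h1 : dist p p' ≤ 5 * θ := by
        by_contra h2
        have h3 := hyp.two_gates (h p' hp') (h' p hp) (by linarith)
        obtain ⟨w, hw, h4⟩ := hWpqc p o (hWsub o M.base) z hz
        exact hu' ⟨hu, p, hp, w, hw, by linarith⟩
      linarith [gp_lip_base z y p p', h' y hy]) z (by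
        rcases hz with hz | ⟨u', h1, h2⟩
        · exact Or.inl hz
        · exact Or.inr ⟨u', h1, fun h => hu' (h ▸ h1), h2⟩) y hy
    linarith
  have hBqc : QC (18 * θ) B := by
    have aux : ∀ y ∈ B, ∃ z, ∃ w ∈ Wp, dist z w ≤ 6 * θ ∧
        ∀ x, ∃ p ∈ B, dist x p ≤ gp y z x + θ := by
      rintro y (hy | ⟨u, hu, hy⟩)
      · exact ⟨y, y, hy, by rw [dist_self]; linarith, fun x => ⟨y, Or.inl hy, by
          rw [gp_self, dist_comm]; linarith⟩⟩
      · obtain ⟨z, hz, w, hw, h⟩ := hu.2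
        refine ⟨z, w, hw, h, fun x => ?_⟩
        obtain ⟨p, hp, h1⟩ := F.qc u x y hy z hz
        exact ⟨p, Or.inr ⟨u, hu, hp⟩, h1⟩
    intro x y hy y' hy'
    obtain ⟨z, w, hw, h1, h2⟩ := aux y hy
    obtain ⟨z', w', hw', h1', h2'⟩ := aux y' hy'
    rcases hyp.three hθ.le y z z' y' x with h | h | h
    · obtain ⟨p, hp, h3⟩ := h2 x
      exact ⟨p, hp, by linarith⟩
    · obtain ⟨p, hp, h3⟩ := hWpqc x w hw w' hw'
      refine ⟨p, Or.inl hp, ?_⟩
      have e1 := gp_lip_left w z w' x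
      have e2 := gp_lip_right z w' z' x
      rw [dist_comm] at e1 e2
      linarith
    · obtain ⟨p, hp, h3⟩ := h2' x
      rw [gp_comm] at h3
      exact ⟨p, hp, by linarith⟩
  -- ping-pong
  have pp : ∀ v t, Bey F.R Vn base v t →
      ∃ r ∈ F.R v, r ≠ 1 ∧ ∀ y ∈ F.A v, gp t y (r • P v) ≤ 48 * θ := by
    intro v t h
    induction h with
    | @base v r z hv hr h1 hz =>
      refine ⟨r, hr, h1, fun y hy => ?_⟩
      rw [gp_smul_left]
      linarith [hP2 v hv z hz _ (F.R_smul ((F.R v).inv_mem hr) hy)]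
    | @step v v' r t hv hr h1 hne ht ih =>
      refine ⟨r, hr, h1, fun y hy => ?_⟩
      rw [gp_smul_left]
      obtain ⟨r', hr', h1', h2⟩ := ih
      have hv' := ht.mem
      have hout : r' • P v' ∈ F.A v' := F.R_smul hr' (hP1 v' hv')
      have := hyp.bg (hP2 v' hv' (P v) (Or.inr ⟨v, hv, hne.symm, hP1 v hv⟩) _ hout)
        (h2 _ (hP1 v' hv')) (hP2 v hv _ (Or.inr ⟨v', hv', hne, hout⟩) _
          (F.R_smul ((F.R v).inv_mem hr) hy))
        (by linarith [F.trans hr' h1' _ (hP1 v' hv')]) hθ.le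
      linarith
  set G' : Subgroup Γ := Subgroup.closure ((G : Set Γ) ∪ {r | ∃ v ∈ Vn, r ∈ F.R v}) with hG'
  have hGG' : G ≤ G' := fun γ hγ => Subgroup.subset_closure (Or.inl hγ)
  have hRG' : ∀ v ∈ Vn, F.R v ≤ G' := fun v hv γ hγ =>
    Subgroup.subset_closure (Or.inr ⟨v, hv, hγ⟩)
  set W' : Set X := {t | t ∈ B ∨ ∃ v, Bey F.R Vn base v t} with hW'
  have hW'inv : ∀ γ ∈ G', ∀ t ∈ W', γ • t ∈ W' := by
    intro γ hγ
    refine bey_closed (Core := B) (G := G) (fun w => F.R_conj w) hVninv ?_ ?_ hbB ?_ hγ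
    · rintro w hw v z (h | ⟨u, h1, h2, h3⟩)
      · exact Or.inl (hWpinv w hw z h)
      · exact Or.inr ⟨w • u, hVninv w hw u h1, fun h => h2 (MulAction.injective w h),
          F.A_smul w h3⟩
    · rintro w hw z (h | ⟨u, h1, h3⟩)
      · exact Or.inl (hWpinv w hw z h)
      · exact Or.inr ⟨w • u, hVninv w hw u h1, F.A_smul w h3⟩
    · intro v hv r hr z hz
      rcases hBb v z hz with h | h
      · exact Or.inl h
      · exact Or.inr (Or.inr ⟨v, hv, F.R_smul hr h⟩)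
  have hW'B : ∀ t ∈ W', ∃ γ ∈ G', ∃ z ∈ B, t = γ • z := by
    rintro t (ht | ⟨v, ht⟩)
    · exact ⟨1, G'.one_mem, t, ht, (one_smul _ _).symm⟩
    · obtain ⟨γ, hγ, v', z, hz, h⟩ := ht.exists_smul hRG'
      exact ⟨γ, hγ, z, hbB _ _ hz, h⟩
  have near_inv : ∀ γ ∈ G', ∀ x p : X, (∀ y ∈ W', dist x p ≤ dist x y + θ) →
      ∀ y ∈ W', dist (γ • x) (γ • p) ≤ dist (γ • x) y + θ := by
    intro γ hγ x p h y hy
    have := h _ (hW'inv γ⁻¹ (G'.inv_mem hγ) y hy)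
    rw [dist_smul, ← smul_inv_smul γ y, dist_smul]
    exact this
  have hQ0 : ∀ x, ∀ p ∈ B, (∀ y ∈ W', dist x p ≤ dist x y + θ) → ∀ y ∈ B, gp x y p ≤ 19 * θ := by
    intro x p hp h y hy
    linarith [hBqc.gate hp (fun y hy => h y (Or.inl hy)) hy]
  have hQ1 : ∀ v t, Bey F.R Vn base v t → ∀ x, ∀ p ∈ B, (∀ y ∈ W', dist x p ≤ dist x y + θ) →
      gp x t p ≤ 20 * θ := by
    have direct : ∀ v t, Bey F.R Vn base v t → ∀ x p, base v p →
        (∀ y ∈ W', dist x p ≤ dist x y + θ) → gp x t p ≤ 20 * θ := by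
      intro v t ht x p hp h
      obtain ⟨r, hr, h1, h2⟩ := pp v t ht
      have hv := ht.mem
      have hout : r • P v ∈ F.A v := F.R_smul hr (hP1 v hv)
      have h3 := hQ0 x p (hbB _ _ hp) h _ (Or.inr ⟨v, hv, hout⟩)
      rw [gp_comm] at h3
      have := hyp.bg (hP2 v hv p hp _ hout) (h2 _ (hP1 v hv)) h3
        (by linarith [F.trans hr h1 _ (hP1 v hv)]) hθ.le
      rw [gp_comm]; linarith
    intro v t ht
    induction ht with
    | @base v r z hv hr h1 hz =>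
      intro x p hp h
      rcases hBb v p hp with h2 | h2
      · exact direct v _ (Bey.base hv hr h1 hz) x p h2 h
      · have hr' := (F.R v).inv_mem hr
        have := hQ0 _ _ (Or.inr ⟨v, hv, F.R_smul hr' h2⟩) (near_inv _ (hRG' v hv hr') x p h) z
          (hbB _ _ hz)
        rw [gp_smul_left, inv_inv] at this
        linarith
    | @step v v' r t hv hr h1 hne ht ih =>
      intro x p hp h
      rcases hBb v p hp with h2 | h2
      · exact direct v _ (Bey.step hv hr h1 hne ht) x p h2 h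
      · have hr' := (F.R v).inv_mem hr
        have := ih _ _ (Or.inr ⟨v, hv, F.R_smul hr' h2⟩) (near_inv _ (hRG' v hv hr') x p h)
        rwa [gp_smul_left, inv_inv] at this
  have hQ2 : ∀ x, ∀ p ∈ W', (∀ y ∈ W', dist x p ≤ dist x y + θ) →
      ∀ y ∈ W', gp x y p ≤ 20 * θ := by
    intro x p hp h y hy
    obtain ⟨γ, hγ, z, hz, rfl⟩ := hW'B p hp
    have h1 := near_inv γ⁻¹ (G'.inv_mem hγ) x _ h
    rw [inv_smul_smul] at h1
    rw [← smul_inv_smul γ x, gp_smul_left]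
    rcases hW'inv γ⁻¹ (G'.inv_mem hγ) y hy with h2 | ⟨v, h2⟩
    · linarith [hQ0 _ z hz h1 _ h2]
    · exact hQ1 v _ h2 _ z hz h1
  refine ⟨W', {v | ∃ γ ∈ G', ∃ v0, (v0 ∈ V ∨ v0 ∈ Vn) ∧ v = γ • v0}, G',
    ⟨Or.inl (Or.inl (hWsub o M.base)), hW'inv, ?_, ?_, ?_, ?_, ?_⟩, ?_, ?_⟩
  · rintro γ hγ _ ⟨γ', hγ', v0, h, rfl⟩
    exact ⟨γ * γ', G'.mul_mem hγ hγ', v0, h, (mul_smul _ _ _).symm⟩
  · intro x y hy y' hy'
    obtain ⟨p, hp, h⟩ := exists_proj ⟨y, hy⟩ x hθ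
    refine ⟨p, hp, ?_⟩
    have h1 := hQ2 x p hp h y hy
    have h2 := hQ2 x p hp h y' hy'
    have h3 := gp_add x y p
    have h4 := gp_add x y' p
    have h5 := gp_comm y p x
    rcases hyp y p y' x with h6 | h6 <;> linarith
  · intro u hu
    obtain ⟨g0, hg0⟩ := F.nonempty u
    obtain ⟨⟨γ, x, g⟩, ⟨hγ, hx, hg⟩, hmin⟩ := exists_near_min
      (S := {a : Γ × X × X | a.1 ∈ G' ∧ a.2.1 ∈ Wp ∧ a.2.2 ∈ F.A u})
      ⟨(1, o, g0), G'.one_mem, hWsub o M.base, hg0⟩ (fun a => dist (a.1 • a.2.1) a.2.2)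
      (fun _ => dist_nonneg) hθ
    simp only at hγ hx hg
    set u' := γ⁻¹ • u with hu'
    have huu : u = γ • u' := by rw [hu', smul_inv_smul]
    have h1 : u' ∉ V := fun h => hu ⟨γ, hγ, u', Or.inl h, huu⟩
    have h2 : u' ∉ Vn := fun h => hu ⟨γ, hγ, u', Or.inr h, huu⟩
    obtain ⟨p, hp, h3⟩ := hL2 u' h1 h2
    have hg' : γ⁻¹ • g ∈ F.A u' := F.A_smul _ hg
    have key : ∀ t ∈ W', ∀ y ∈ F.A u', gp t y p ≤ 18 * θ := by
      rintro t (ht | ⟨v, ht⟩) y hy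
      · linarith [h3 t ht y hy]
      · obtain ⟨r, hr, h4, h5⟩ := pp v t ht
        have hv := ht.mem
        have hne : u' ≠ v := fun h => h2 (h ▸ hv)
        have hout : r • P v ∈ F.A v := F.R_smul hr (hP1 v hv)
        obtain ⟨s, hs, hs'⟩ := F.overlap u' v hne
        obtain ⟨g1, hg1, hg1'⟩ := F.overlap v u' hne.symm
        have htr := F.trans hr h4 _ (hP1 v hv)
        have hfar : 300 * θ < dist s (r • P v) := by
          by_contra h6
          have h7 := dist_triangle (P v) s (r • P v)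
          have h8 := hyp.dist_two_gates (hP2 v hv x (Or.inl hx) s hs)
            (hs' _ hg' _ (hP1 v hv)) (by linarith)
          have h9 := hmin (γ * r, x, g) ⟨G'.mul_mem hγ (hRG' v hv hr), hx, hg⟩
          simp only at h9
          have e1 : dist (γ • x) g = dist x (γ⁻¹ • g) := by
            rw [← dist_smul γ x, smul_inv_smul]
          have e2 : dist ((γ * r) • x) g = dist (r • x) (γ⁻¹ • g) := by
            rw [mul_smul, ← dist_smul γ (r • x), smul_inv_smul]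
          have h10 := dist_triangle4 (r • x) (r • P v) s (γ⁻¹ • g)
          rw [dist_smul, dist_comm (r • P v) s] at h10
          linarith
        have h6 := hyp.bg (hs' g1 hg1 _ hout) (h5 s hs) (hg1' _ hout y hy) (by linarith) hθ.le
        have h7 := dist_le_of_gates (h3 _ (Or.inr ⟨v, hv, hout⟩) g1 hg1) (hg1' _ hout p hp)
        linarith [gp_lip_base t y p g1]
    refine ⟨γ • p, huu ▸ F.A_smul γ hp, fun z hz y hy => ?_⟩
    rw [← smul_inv_smul γ z, gp_smul_left]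
    exact key _ (hW'inv γ⁻¹ (G'.inv_mem hγ) z hz) _ (F.A_smul _ hy)
  · rintro _ ⟨γ, hγ, v0, h, rfl⟩ r hr
    have h1 := F.R_conj γ⁻¹ hr
    rw [inv_smul_smul] at h1
    have h2 : γ⁻¹ * r * γ⁻¹⁻¹ ∈ G' := by
      rcases h with h | h
      · exact hGG' (M.le v0 h h1)
      · exact hRG' v0 h h1
    have := G'.mul_mem (G'.mul_mem hγ h2) (G'.inv_mem hγ)
    simpa [mul_assoc] using this
  · intro γ hγ h1
    have h2 := bey_closed (Ω := Γ) (R := F.R) (Vn := Vn) (base := fun _ z => z ∈ G) (Core := G)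
      (G := G) (fun w => F.R_conj w) hVninv (fun w hw _ z hz => G.mul_mem hw hz)
      (fun w hw z hz => G.mul_mem hw hz) (fun _ _ h => h) (fun _ _ _ _ _ h => Or.inl h) hγ 1
      (Or.inl G.one_mem)
    rw [smul_eq_mul, mul_one] at h2
    rcases h2 with h2 | ⟨v, h2⟩
    · exact M.green γ h2 h1
    · have h3 : ∀ v γ, Bey F.R Vn (fun _ (z : Γ) => z ∈ G) v γ → Bey F.R Vn base v (γ • o) := by
        intro v γ h
        induction h with
        | base hv hr h1 hz =>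
          rw [smul_eq_mul, mul_smul]
          exact Bey.base hv hr h1 (Or.inl (hWpinv _ hz o (hWsub o M.base)))
        | step hv hr h1 hne _ ih =>
          rw [smul_eq_mul, mul_smul]
          exact Bey.step hv hr h1 hne ih
      obtain ⟨r, hr, h4, h5⟩ := pp v _ (h3 v γ h2)
      have hv := h2.mem
      exact ⟨v, P v, hP1 v hv, r • P v, F.R_smul hr (hP1 v hv), fun y hy => by
        linarith [hP2 v hv o (Or.inl (hWsub o M.base)) y hy], h5, F.trans hr h4 _ (hP1 v hv)⟩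
  · rintro x ⟨w, hw, h⟩
    exact Or.inl (Or.inl ⟨w, hw, by linarith⟩)
  · rintro v ⟨z, hz, hzW⟩
    refine ⟨1, G'.one_mem, v, ?_, (one_smul _ _).symm⟩
    by_cases h : v ∈ V
    · exact Or.inl h
    · exact Or.inr ⟨h, z, hz, z, hWsub z hzW, by rw [dist_self]; linarith⟩

theorem greendlinger (hθ : 0 < θ) (hL : 1000 * θ ≤ L) (hyp : Hyp X θ) (geo : Geo X) (o : X)
    {γ : Γ} (hγ : γ ∈ Subgroup.closure {r | ∃ v, r ∈ F.R v}) (h1 : γ ≠ 1) : F.Green o γ := by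
  have big : ∀ k : ℕ, ∃ W V G, F.Mill o W V G ∧ ∀ x, dist o x ≤ k * θ → x ∈ W ∨ dist o x = 0 := by
    intro k
    induction k with
    | zero =>
      exact ⟨_, _, _, F.mill_zero hθ o, fun x hx => Or.inr
        (le_antisymm (by simpa using hx) dist_nonneg)⟩
    | succ k ih =>
      obtain ⟨W, V, G, M, h⟩ := ih
      obtain ⟨W', V', G', M', h2, _⟩ := F.mill_step hθ hL hyp geo M
      refine ⟨W', V', G', M', fun x hx => Or.inl (h2 x ?_)⟩
      push_cast at hx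
      by_cases h3 : dist o x ≤ θ
      · exact ⟨o, M.base, by rwa [dist_comm]⟩
      · obtain ⟨m, hm1, hm2⟩ := geo o x (dist o x - θ) (by linarith) (by linarith)
        rcases h m (by linarith) with h4 | h4
        · exact ⟨m, h4, by rw [dist_comm]; linarith⟩
        · exact absurd h4 (by linarith)
  have loc : ∃ ρ : ℝ, ∀ G : Subgroup Γ, (∀ v, (∃ z ∈ F.A v, dist o z ≤ ρ) → F.R v ≤ G) → γ ∈ G := by
    clear h1
    induction hγ using Subgroup.closure_induction with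
    | mem x hx =>
      obtain ⟨v, hx⟩ := hx
      obtain ⟨z, hz⟩ := F.nonempty v
      exact ⟨dist o z, fun G h => h v ⟨z, hz, le_rfl⟩ hx⟩
    | one => exact ⟨0, fun G _ => G.one_mem⟩
    | mul x y _ _ hx hy =>
      obtain ⟨ρ1, h1⟩ := hx
      obtain ⟨ρ2, h2⟩ := hy
      refine ⟨max ρ1 ρ2, fun G h => G.mul_mem (h1 G ?_) (h2 G ?_)⟩
      · rintro v ⟨z, hz, h3⟩
        exact h v ⟨z, hz, h3.trans (le_max_left _ _)⟩
      · rintro v ⟨z, hz, h3⟩
        exact h v ⟨z, hz, h3.trans (le_max_right _ _)⟩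
    | inv x _ hx =>
      obtain ⟨ρ, h1⟩ := hx
      exact ⟨ρ, fun G h => G.inv_mem (h1 G h)⟩
  obtain ⟨ρ, hρ⟩ := loc
  obtain ⟨k, hk⟩ := exists_nat_ge (ρ / θ)
  rw [div_le_iff₀ hθ] at hk
  obtain ⟨W, V, G, M, h⟩ := big k
  obtain ⟨W1, V1, G1, M1, h2, _⟩ := F.mill_step hθ hL hyp geo M
  obtain ⟨W2, V2, G2, M2, _, h3⟩ := F.mill_step hθ hL hyp geo M1
  refine M2.green γ (hρ G2 ?_) h1
  rintro v ⟨z, hz, h4⟩
  refine M2.le v (h3 v ⟨z, hz, h2 z ?_⟩)
  rcases h z (by linarith) with h5 | h5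
  · exact ⟨z, h5, by rw [dist_self]; exact hθ.le⟩
  · exact ⟨o, M.base, by rw [dist_comm, h5]; exact hθ.le⟩

end Fam

end Pool.Agent.Lib.MP_ebddb6_al
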