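import Pool.Agent.Lib.MP_ebddb6_al.Line
import Pool.Agent.Lib.MP_ebddb6_al.Windmill

set_option linter.unusedSectionVars false

namespace Pool.Agent.Lib.MP_ebddb6_al

variable {X : Type*} [PseudoMetricSpace X]
variable {Γ : Type*} [Group Γ] [MulAction Γ X] [IsIsometricSMul Γ X] {o : X} {δ : ℝ}

/-- the elements conjugating `a` to `a` or its inverse -/
def elem (a : Γ) : Subgroup Γ where
  carrier := {e | e * a * e⁻¹ = a ∨ e * a * e⁻¹ = a⁻¹}
  one_mem' := by simp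
  mul_mem' := by
    intro x y hx hy
    have e : x * y * a * (x * y)⁻¹ = x * (y * a * y⁻¹) * x⁻¹ := by simp [mul_assoc]
    have e2 : x * a⁻¹ * x⁻¹ = (x * a * x⁻¹)⁻¹ := by simp [mul_assoc]
    simp only [Set.mem_ofPred_eq] at hx hy ⊢
    rw [e]
    rcases hy with hy | hy <;> rw [hy]
    · exact hx
    · rw [e2]
      rcases hx with hx | hx <;> rw [hx] <;> simp
  inv_mem' := by
    intro x hx
    simp only [Set.mem_ofPred_eq] at hx ⊢
    rcases hx with hx | hx
    · left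
      conv_lhs => rw [← hx]
      simp [mul_assoc]
    · right
      have h2 : a = x * a⁻¹ * x⁻¹ := by
        have := congrArg (·⁻¹) hx
        simpa [mul_assoc] using this.symm
      conv_lhs => rw [h2]
      simp [mul_assoc]

lemma mem_elem {a e : Γ} : e ∈ elem a ↔ e * a * e⁻¹ = a ∨ e * a * e⁻¹ = a⁻¹ := Iff.rfl

lemma elem_conj {a e : Γ} (he : e ∈ elem a) (n : ℕ) {r : Γ} (hr : r ∈ Subgroup.zpowers (a ^ n)) :
    e * r * e⁻¹ ∈ Subgroup.zpowers (a ^ n) := by
  obtain ⟨k, rfl⟩ := hr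
  simp only
  rw [← conj_zpow, ← conj_pow]
  rcases he with he | he <;> rw [he]
  · exact ⟨k, rfl⟩
  · exact ⟨-k, by simp⟩

lemma zpow_mem_elem (g : Γ) (n : ℕ) (i : ℤ) : g ^ i ∈ elem (g ^ n) := by
  left
  rw [mul_inv_eq_iff_eq_mul, ← zpow_natCast, ← zpow_add, ← zpow_add, add_comm]

/-- the extra properties of the family of axes -/
structure Fam.Good {Y : Type*} [MulAction Γ Y] {θ L : ℝ} (F : Fam Γ X Y θ L) (o : X) (g : Γ)
    (T : ℝ) : Prop where
  shift : ∀ v, ∀ p ∈ F.A v, ∀ q ∈ F.A v, ∃ r ∈ F.R v, dist p (r • q) ≤ |T - dist p q| + θ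
  line : ∀ v, ∀ m ∈ F.A v, ∃ h : Γ, m = h • o ∧
    ∀ y ∈ F.A v, ∃ i : ℤ, dist y ((h * g ^ i) • o) ≤ θ ∧ |(i : ℝ)| ≤ dist m y + θ

namespace Lox

variable {g : Γ}

/-- the axis attached to a coset -/
def ax (o : X) {E : Subgroup Γ} (v : Γ ⧸ E) : Set X := {x | ∃ h : Γ, (h : Γ ⧸ E) = v ∧ x = h • o}

lemma ax_near (c : Ctx Γ o δ) (h : Lox o δ g) {n : ℕ} (hn : 1 ≤ n) {k : Γ} {y : X}
    (hy : y ∈ ax o (k : Γ ⧸ elem (g ^ n))) :
    ∃ i : ℤ, dist y (k • g ^ i • o) ≤ 2 * dist o (g • o) := by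
  obtain ⟨k', h1, rfl⟩ := hy
  obtain ⟨i, hi⟩ := h.close c hn (QuotientGroup.eq.1 h1.symm)
  refine ⟨i, ?_⟩
  rwa [← dist_smul k, ← mul_smul, mul_inv_cancel_left] at hi

lemma mem_ax (o : X) (g : Γ) (n : ℕ) (k : Γ) (i : ℤ) :
    k • g ^ i • o ∈ ax o (k : Γ ⧸ elem (g ^ n)) :=
  ⟨k * g ^ i, QuotientGroup.eq.2 (by simpa using (elem (g ^ n)).inv_mem (zpow_mem_elem g n i)),
    (mul_smul _ _ _).symm⟩

lemma ax_qc (c : Ctx Γ o δ) (h : Lox o δ g) {n : ℕ} (hn : 1 ≤ n) (v : Γ ⧸ elem (g ^ n)) :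
    QC (5 * dist o (g • o)) (ax o v) := by
  obtain ⟨k, rfl⟩ := QuotientGroup.mk_surjective v
  intro x y hy y' hy'
  obtain ⟨i, hi⟩ := h.ax_near c hn hy
  obtain ⟨j, hj⟩ := h.ax_near c hn hy'
  obtain ⟨_, ⟨m, rfl⟩, hm⟩ := h.qc c (k⁻¹ • x) _ ⟨i, rfl⟩ _ ⟨j, rfl⟩
  simp only at hm
  rw [← dist_smul k, ← gp_smul k, smul_inv_smul] at hm
  refine ⟨_, mem_ax o g n k m, ?_⟩
  have h1 := gp_lip_left (k • g ^ i • o) y (k • g ^ j • o) x
  have h2 := gp_lip_right y (k • g ^ j • o) y' x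
  rw [dist_comm] at h1 h2
  linarith

lemma between (c : Ctx Γ o δ) (h : Lox o δ g) {i j t : ℤ} (h1 : min i j ≤ t) (h2 : t ≤ max i j) :
    gp (g ^ i • o) (g ^ j • o) (g ^ t • o) ≤ 6 * δ := by
  rcases le_total i j with h3 | h3
  · rw [min_eq_left h3] at h1
    rw [max_eq_right h3] at h2
    exact h.line c h1 h2
  · rw [min_eq_right h3] at h1
    rw [max_eq_left h3] at h2
    rw [gp_comm]
    exact h.line c h1 h2

lemma ax_overlap (c : Ctx Γ o δ) (h : Lox o δ g) {M : ℕ}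
    (hM : M = (c.ball (22 * dist o (g • o))).card) {u v : Γ ⧸ elem (g ^ M.factorial)}
    (huv : u ≠ v) : ∃ p ∈ ax o v, ∀ z ∈ ax o u, ∀ y ∈ ax o v,
      gp z y p ≤ (M + 20) * dist o (g • o) := by
  have hδ := c.one_le
  have hl := h.len
  have hn : 1 ≤ M.factorial := M.factorial_pos
  obtain ⟨k, rfl⟩ := QuotientGroup.mk_surjective v
  obtain ⟨k', rfl⟩ := QuotientGroup.mk_surjective u
  set l := dist o (g • o) with hl'
  have hne : (ax o (k : Γ ⧸ elem (g ^ M.factorial))).Nonempty := ⟨_, mem_ax o g _ k 0⟩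
  have hz0 := mem_ax o g M.factorial k' 0
  set z0 := k' • g ^ (0 : ℤ) • o
  obtain ⟨p, hp, h1⟩ := (h.ax_qc c hn k).exists_gate hne (show 0 < δ by linarith) z0
  refine ⟨p, hp, fun z hz y hy => ?_⟩
  obtain ⟨p', hp', h2⟩ := (h.ax_qc c hn k).exists_gate hne (show 0 < δ by linarith) z
  have hM0 : (0 : ℝ) ≤ M := Nat.cast_nonneg M
  have hMl : 0 ≤ M * l := by positivity
  by_cases h3 : dist p' p ≤ (M + 11) * l
  · have := gp_lip_base z y p p'
    rw [dist_comm] at h3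
    linarith [h2 y hy]
  exfalso
  apply huv
  rw [dist_comm, not_le] at h3
  have h4 := c.hyp.dist_two_gates (h1 p' hp') (h2 p hp) (by linarith)
  obtain ⟨i, hi⟩ := h.ax_near c hn hp
  obtain ⟨j, hj⟩ := h.ax_near c hn hp'
  have h5 : (M : ℤ) ≤ |j - i| := by
    have e1 := dist_le g o (j - i)
    rw [← dist_shift, ← dist_smul k] at e1
    have e2 := dist_triangle4 p (k • g ^ i • o) (k • g ^ j • o) p'
    rw [dist_comm (k • g ^ j • o) p'] at e2
    have e3 : (M : ℝ) * l ≤ |((j - i : ℤ) : ℝ)| * l := by linarith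
    have e4 := le_of_mul_le_mul_right e3 (by linarith)
    exact_mod_cast e4
  have h6 := h.fellow c (e := k'⁻¹ * k) (r := 22 * l) (j := min i j) (by
    intro t ht
    rw [← hM] at ht
    have e1 := h.between c (i := i) (j := j) (t := min i j + t) (by omega) (by
      rcases abs_cases (j - i) with h7 | h7 <;> omega)
    rw [← gp_smul k] at e1
    set w := k • g ^ (min i j + t) • o with hw
    have e2 := gp_lip_left p (k • g ^ i • o) p' w
    have e3 := gp_lip_right (k • g ^ i • o) p' (k • g ^ j • o) w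
    have e4 := dist_eq_gp p p' w
    have e5 := dist_eq_gp z0 z w
    have e6 := dist_triangle z0 p w
    have e7 := dist_triangle w p' z
    obtain ⟨q, hq, e8⟩ := h.ax_qc c hn k' w z0 hz0 z hz
    obtain ⟨m, hm⟩ := h.ax_near c hn hq
    refine ⟨m, ?_⟩
    rw [← dist_smul k', ← mul_smul, mul_inv_cancel_left, ← hw]
    have e9 := dist_triangle w q (k' • g ^ m • o)
    linarith)
  rw [← hM] at h6
  exact QuotientGroup.eq.2 h6

/-- the rotation group attached to a coset -/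
def rot {E : Subgroup Γ} (a : Γ) (v : Γ ⧸ E) : Subgroup Γ where
  carrier := {r | ∀ h : Γ, (h : Γ ⧸ E) = v → h⁻¹ * r * h ∈ Subgroup.zpowers a}
  one_mem' := by intro h _; simp
  mul_mem' := by
    intro x y hx hy h hh
    have := Subgroup.mul_mem _ (hx h hh) (hy h hh)
    simpa [mul_assoc] using this
  inv_mem' := by
    intro x hx h hh
    have := Subgroup.inv_mem _ (hx h hh)
    simpa [mul_assoc] using this

lemma mem_rot {a : Γ} (n : ℕ) (k : Γ) (i : ℤ) :
    k * (a ^ n) ^ i * k⁻¹ ∈ rot (a ^ n) (k : Γ ⧸ elem a) := by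
  intro h hh
  have := elem_conj (QuotientGroup.eq.1 hh) n (r := (a ^ n) ^ i) ⟨i, rfl⟩
  simpa [mul_assoc] using this

lemma shift_aux (c : Ctx Γ o δ) (h : Lox o δ g) {n i : ℤ} (hn : 0 ≤ n) (hi : 0 ≤ i) :
    dist o (g ^ (i - n) • o) ≤ |dist o (g ^ n • o) - dist o (g ^ i • o)| + 12 * δ := by
  have e1 := le_abs_self (dist o (g ^ n • o) - dist o (g ^ i • o))
  have e2 := neg_abs_le (dist o (g ^ n • o) - dist o (g ^ i • o))
  rw [← dist_shift]
  rcases le_total n i with h1 | h1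
  · have := h.add_le c hn h1
    rw [zpow_zero, one_smul] at this
    linarith
  · have := h.add_le c hi h1
    rw [zpow_zero, one_smul, dist_comm (g ^ i • o) (g ^ n • o)] at this
    linarith

theorem exists_fam (c : Ctx Γ o δ) (h : Lox o δ g) : ∃ (θ : ℝ) (n0 : ℕ), δ ≤ θ ∧ 1 ≤ n0 ∧
    ∀ n1 : ℕ, ∃ F : Fam Γ X (Γ ⧸ elem (g ^ n0)) θ (dist o (g ^ (n0 * n1) • o) - θ),
      F.Good o g (dist o (g ^ (n0 * n1) • o)) ∧ ∃ v, g ^ (n0 * n1) ∈ F.R v := by
  have hδ := c.one_le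
  have hl := h.len
  set l := dist o (g • o) with hl'
  set M := (c.ball (22 * l)).card with hM
  have hn : 1 ≤ M.factorial := M.factorial_pos
  have hM0 : (0 : ℝ) ≤ M := Nat.cast_nonneg M
  have hMl : 0 ≤ M * l := by positivity
  refine ⟨(M + 20) * l, M.factorial, by linarith, hn, fun n1 => ?_⟩
  have hpow : ∀ i : ℤ, ((g ^ M.factorial) ^ n1) ^ i = g ^ ((M.factorial * n1 : ℕ) * i : ℤ) := by
    intro i
    rw [← pow_mul, zpow_mul, zpow_natCast]
  refine ⟨
    { A := ax o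
      R := rot ((g ^ M.factorial) ^ n1)
      A_smul := ?_
      R_conj := ?_
      R_fix := ?_
      nonempty := ?_
      qc := fun v => (h.ax_qc c hn v).mono (by linarith)
      overlap := fun u v huv => h.ax_overlap c hM huv
      trans := ?_ }, ⟨?_, ?_⟩, ((1 : Γ) : Γ ⧸ elem (g ^ M.factorial)), ?_⟩
  · rintro γ v x ⟨k, rfl, rfl⟩
    exact ⟨γ * k, rfl, (mul_smul _ _ _).symm⟩
  · intro γ v r hr k hk
    have := hr (γ⁻¹ * k) (by
      rw [← inv_smul_smul γ v, ← hk]; rfl)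
    simpa [mul_assoc] using this
  · intro v r hr
    obtain ⟨k, rfl⟩ := QuotientGroup.mk_surjective v
    obtain ⟨i, hi⟩ := hr k rfl
    have e : r • (k : Γ ⧸ elem (g ^ M.factorial)) = (r * k : Γ) := rfl
    rw [e, eq_comm, QuotientGroup.eq, ← mul_assoc, ← hi]
    simp only
    rw [hpow]
    exact zpow_mem_elem _ _ _
  · intro v
    obtain ⟨k, rfl⟩ := QuotientGroup.mk_surjective v
    exact ⟨_, mem_ax o g _ k 0⟩
  · rintro v r hr h1 x ⟨k, rfl, rfl⟩
    obtain ⟨i, hi⟩ := hr k rfl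
    simp only at hi
    have hi0 : i ≠ 0 := by
      rintro rfl
      apply h1
      rw [zpow_zero, eq_comm, mul_eq_one_iff_eq_inv, inv_mul_eq_iff_eq_mul] at hi
      simpa using hi
    have e1 : dist (k • o) (r • k • o) = dist o (g ^ ((M.factorial * n1 : ℕ) * |i| : ℤ) • o) := by
      rw [← dist_inv_smul, ← mul_smul, ← mul_smul, ← hi, hpow]
      rcases abs_choice i with h2 | h2
      · rw [h2]
      · rw [h2, mul_neg, dist_neg]
    have h3 : (1 : ℤ) ≤ |i| := Int.one_le_abs hi0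
    have h4 : (0 : ℤ) ≤ ((M.factorial * n1 : ℕ) : ℤ) := Int.natCast_nonneg _
    have e2 := h.add_le c (i := 0) (j := ((M.factorial * n1 : ℕ) : ℤ))
      (k := (M.factorial * n1 : ℕ) * |i|) h4 (by nlinarith)
    rw [zpow_zero, one_smul, zpow_natCast] at e2
    rw [e1]
    have := dist_nonneg (x := g ^ (M.factorial * n1) • o)
      (y := g ^ ((M.factorial * n1 : ℕ) * |i| : ℤ) • o)
    linarith
  · rintro v p ⟨k, rfl, rfl⟩ q hq
    obtain ⟨i, hi⟩ := h.ax_near c hn hq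
    have h4 : (0 : ℤ) ≤ ((M.factorial * n1 : ℕ) : ℤ) := Int.natCast_nonneg _
    have key : ∀ j : ℤ, dist o (g ^ ((M.factorial * n1 : ℕ) * j + i : ℤ) • o) ≤
        |dist o (g ^ (M.factorial * n1) • o) - dist o (g ^ i • o)| + 12 * δ →
        dist (k • o) ((k * ((g ^ M.factorial) ^ n1) ^ j * k⁻¹) • q) ≤
        |dist o (g ^ (M.factorial * n1) • o) - dist (k • o) q| + (M + 20) * l := by
      intro j hj
      have e1 := dist_triangle (k • o) ((k * ((g ^ M.factorial) ^ n1) ^ j * k⁻¹) • k • g ^ i • o)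
        ((k * ((g ^ M.factorial) ^ n1) ^ j * k⁻¹) • q)
      have e0 : (k * ((g ^ M.factorial) ^ n1) ^ j * k⁻¹) • k • g ^ i • o =
          k • g ^ ((M.factorial * n1 : ℕ) * j + i : ℤ) • o := by
        rw [mul_smul, inv_smul_smul, mul_smul, hpow, shift]
      rw [dist_smul, dist_comm _ q, e0, dist_smul] at e1
      have e2 := abs_dist_sub_le q (k • g ^ i • o) (k • o)
      rw [dist_smul, dist_comm q (k • o), dist_comm _ o] at e2
      have e3 := abs_sub_le (dist o (g ^ (M.factorial * n1) • o)) (dist (k • o) q) (dist o (g ^ i • o))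
      linarith
    rcases le_total 0 i with h5 | h5
    · refine ⟨_, mem_rot n1 k (-1), key _ ?_⟩
      have := h.shift_aux c h4 h5
      rw [zpow_natCast] at this
      rwa [mul_neg, mul_one, neg_add_eq_sub]
    · refine ⟨_, mem_rot n1 k 1, key _ ?_⟩
      have := h.shift_aux c h4 (i := -i) (by omega)
      rw [zpow_natCast, dist_neg, ← dist_neg, neg_sub, sub_neg_eq_add] at this
      rwa [mul_one]
  · rintro v m ⟨k, rfl, rfl⟩
    refine ⟨k, rfl, fun y hy => ?_⟩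
    obtain ⟨i, hi⟩ := h.ax_near c hn hy
    refine ⟨i, by rw [mul_smul]; linarith, ?_⟩
    have e1 := h.abs_le_dist c i
    have e2 := dist_triangle (k • o) y (k • g ^ i • o)
    rw [dist_smul] at e2
    linarith
  · have := mem_rot (a := g ^ M.factorial) n1 1 1
    simpa [pow_mul] using this

end Lox

end Pool.Agent.Lib.MP_ebddb6_al
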