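import Pool.Agent.Lib.MP_ebddb6_al.Axis

set_option linter.unusedSectionVars false

namespace Pool.Agent.Lib.MP_ebddb6_al

variable {X : Type*} [PseudoMetricSpace X]
variable {Γ : Type*} [Group Γ] [MulAction Γ X] [IsIsometricSMul Γ X] {o : X} {θ : ℝ}

lemma Ctx.mono {δ : ℝ} (c : Ctx Γ o δ) (h : δ ≤ θ) : Ctx Γ o θ :=
  ⟨c.hyp.mono h, c.geo, c.one_le.trans h, fun x => (c.cocomp x).imp fun _ h' => h'.trans h, c.fin⟩

lemma Ctx.cover (c : Ctx Γ o θ) (b ξ : X) (r : ℕ) (C : ℝ) : ∃ Q : Finset Γ,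
    Q.card ≤ (r + 1) * (c.ball (C + 4 * θ)).card ∧
      ∀ h : Γ, dist b (h • o) ≤ r → gp b ξ (h • o) ≤ C → h ∈ Q := by
  classical
  have hθ := c.one_le
  have h1 : ∀ t : ℕ, ∃ γ : Γ, (t : ℝ) ≤ dist b ξ →
      ∃ y, dist b y = t ∧ dist y ξ = dist b ξ - t ∧ dist y (γ • o) ≤ θ := by
    intro t
    by_cases h : (t : ℝ) ≤ dist b ξ
    · obtain ⟨y, h1, h2⟩ := c.geo b ξ t (Nat.cast_nonneg t) h
      obtain ⟨γ, hγ⟩ := c.cocomp y
      exact ⟨γ, fun _ => ⟨y, h1, h2, hγ⟩⟩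
    · exact ⟨1, fun h' => absurd h' h⟩
  choose γ hγ using h1
  refine ⟨(Finset.range (r + 1) ×ˢ c.ball (C + 4 * θ)).image (fun p => γ p.1 * p.2), ?_, ?_⟩
  · refine Finset.card_image_le.trans ?_
    rw [Finset.card_product, Finset.card_range]
  · intro h h2 h3
    set w := gp (h • o) ξ b with hw
    have w0 : 0 ≤ w := gp_nonneg _ _ _
    have w1 : w ≤ r := (gp_le_left _ _ _).trans (by rwa [dist_comm])
    have w2 : w ≤ dist b ξ := (gp_le_right _ _ _).trans (dist_comm _ _).le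
    have w3 := Nat.floor_le w0
    have w4 := Nat.lt_floor_add_one w
    obtain ⟨y, y1, y2, y3⟩ := hγ ⌊w⌋₊ (w3.trans w2)
    have h4 := c.hyp.dist_le_of_between (z := h • o) y1 y2
    rw [← hw, abs_of_nonneg (by linarith)] at h4
    refine Finset.mem_image.2 ⟨(⌊w⌋₊, (γ ⌊w⌋₊)⁻¹ * h), ?_, by simp⟩
    rw [Finset.mem_product, Finset.mem_range, c.mem_ball, mul_smul, dist_inv_smul]
    refine ⟨Nat.lt_succ_of_le (Nat.floor_le_of_le w1), ?_⟩
    have := dist_triangle_left (γ ⌊w⌋₊ • o) (h • o) y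
    rw [dist_comm y (h • o)] at this
    linarith

lemma Ctx.growth (c : Ctx Γ o θ) {φ : X → ℝ} {R lam : ℝ} (hR : 0 ≤ R)
    (hlam : 0 ≤ lam) (h : ∀ (b : X) (S : Finset Γ), (∀ γ ∈ S, dist b (γ • o) ≤ R + 2 * θ) →
      ∑ γ ∈ S, φ (γ • o) ≤ lam * φ b) (k : ℕ) :
    ∑ γ ∈ c.ball (k * R + θ), φ (γ • o) ≤ lam ^ (k + 1) * φ o := by
  classical
  have hθ := c.one_le
  induction k with
  | zero =>
    rw [zero_add, pow_one]
    refine h o _ fun γ hγ => ?_
    rw [c.mem_ball] at hγ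
    simp only [Nat.cast_zero, zero_mul, zero_add] at hγ
    linarith
  | succ k ih =>
    have h1 : ∀ γ : Γ, ∃ γ' : Γ, γ ∈ c.ball (((k + 1 : ℕ) : ℝ) * R + θ) →
        γ' ∈ c.ball (k * R + θ) ∧ dist (γ' • o) (γ • o) ≤ R + 2 * θ := by
      intro γ
      have hk : (0 : ℝ) ≤ k * R := by positivity
      obtain ⟨y, y1, y2⟩ := c.geo o (γ • o) (min (k * R) (dist o (γ • o)))
        (le_min hk dist_nonneg) (min_le_right _ _)
      obtain ⟨γ', h2⟩ := c.cocomp y
      refine ⟨γ', fun h3 => ?_⟩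
      rw [c.mem_ball] at h3 ⊢
      push_cast at h3
      have e1 := dist_triangle o y (γ' • o)
      have e2 := dist_triangle_left (γ' • o) (γ • o) y
      have e3 := min_le_left (k * R) (dist o (γ • o))
      refine ⟨by linarith, ?_⟩
      rcases min_choice (k * R) (dist o (γ • o)) with e4 | e4 <;> rw [e4] at y2 <;> linarith
    choose π hπ using h1
    rw [← Finset.sum_fiberwise_of_maps_to (fun γ hγ => (hπ γ hγ).1)]
    calc _ ≤ ∑ γ' ∈ c.ball (k * R + θ), lam * φ (γ' • o) := by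
          refine Finset.sum_le_sum fun γ' _ => h _ _ fun γ hγ => ?_
          rw [Finset.mem_filter] at hγ
          rw [← hγ.2]
          exact (hπ γ hγ.1).2
      _ ≤ lam * (lam ^ (k + 1) * φ o) := by
          rw [← Finset.mul_sum]
          exact mul_le_mul_of_nonneg_left ih hlam
      _ = _ := by ring

namespace Fam

variable {Y : Type*} [MulAction Γ Y] {T : ℝ} {g : Γ}

/-- the subgroup generated by all rotation groups -/
def N {L : ℝ} (F : Fam Γ X Y θ L) : Subgroup Γ := Subgroup.closure {r | ∃ v, r ∈ F.R v}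

lemma N_normal {L : ℝ} (F : Fam Γ X Y θ L) : F.N.Normal := by
  refine ⟨fun x hx γ => ?_⟩
  induction hx using Subgroup.closure_induction with
  | mem x hx =>
    obtain ⟨v, hx⟩ := hx
    exact Subgroup.subset_closure ⟨_, F.R_conj γ hx⟩
  | one => simp
  | mul x y _ _ hx hy => simpa [mul_assoc] using F.N.mul_mem hx hy
  | inv x _ hx => simpa [mul_assoc] using F.N.inv_mem hx

lemma short {L : ℝ} {F : Fam Γ X Y θ L} (G : F.Good o g T) (c : Ctx Γ o θ) {b ξ m p : X} {η : ℝ}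
    {v : Y} (hξ : ∀ ν ∈ F.N, dist b ξ ≤ dist b (ν • ξ) + η) (hm : m ∈ F.A v) (hp : p ∈ F.A v)
    (h1 : gp b p m ≤ 2 * θ) (h2 : gp ξ m p ≤ 48 * θ) (hη : 0 ≤ η) (hT : 103 * θ + η < T) :
    dist m p ≤ (T + 103 * θ + η) / 2 := by
  have hθ := c.one_le
  by_cases h3 : dist m p ≤ 51 * θ
  · linarith
  have h4 := c.hyp.dist_two_gates h1 h2 (by linarith)
  obtain ⟨r, hr, h5⟩ := G.shift v m hm p hp
  have h6 := hξ r (Subgroup.subset_closure ⟨v, hr⟩)
  have h7 := dist_triangle4 b m (r • p) (r • ξ)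
  rw [dist_smul] at h7
  rcases abs_cases (T - dist m p) with h8 | h8 <;> linarith

lemma direction {F : Fam Γ X Y θ (T - θ)} (G : F.Good o g T) (c : Ctx Γ o θ) {R : ℝ} (hR : 0 ≤ R)
    (hT : 1001 * θ + 2 * R ≤ T) {r : ℕ} (hr : 2 * R + 8 * θ ≤ r) (b : X) : ∃ Q : Finset Γ,
    Q.card ≤ (r + 1) * (c.ball (7 * θ)).card * (2 * r + 1) ∧ ∀ z, dist b z ≤ R → ∀ ν ∈ F.N,
      (∀ μ ∈ F.N, dist z (ν • o) ≤ dist z (μ • o) + θ) →
        ∃ γ ∈ Q, dist z (γ • o) ≤ gp b (ν • o) z + 8 * θ := by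
  classical
  have hθ := c.one_le
  obtain ⟨ν0, hν0, h0⟩ := exists_near_min (S := (F.N : Set Γ)) ⟨1, F.N.one_mem⟩
    (fun ν => dist b (ν • o)) (fun _ => dist_nonneg) (show 0 < θ by linarith)
  set ξ := ν0 • o with hξ
  obtain ⟨Q, hQ, hQ'⟩ := c.cover b ξ r (3 * θ)
  rw [show 3 * θ + 4 * θ = 7 * θ by ring] at hQ
  refine ⟨(Q ×ˢ Finset.Icc (-(r : ℤ)) r).image (fun p => p.1 * g ^ p.2), ?_, ?_⟩
  · refine Finset.card_image_le.trans ?_
    rw [Finset.card_product, Int.card_Icc]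
    refine Nat.mul_le_mul hQ (by omega)
  intro z hz ν hν h1
  set w := gp b (ν • o) z with hw
  have w1 : w ≤ R := (gp_le_left _ _ _).trans hz
  have mem : ∀ (h : Γ) (i : ℤ), dist b (h • o) ≤ r → gp b ξ (h • o) ≤ 3 * θ → |(i : ℝ)| ≤ r →
      h * g ^ i ∈ (Q ×ˢ Finset.Icc (-(r : ℤ)) r).image (fun p => p.1 * g ^ p.2) := by
    intro h i e1 e2 e3
    refine Finset.mem_image.2 ⟨(h, i), ?_, rfl⟩
    rw [Finset.mem_product, Finset.mem_Icc, ← abs_le]
    exact ⟨hQ' h e1 e2, by exact_mod_cast e3⟩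
  have easy : gp b ξ z ≤ w + 5 * θ →
      ∃ γ ∈ (Q ×ˢ Finset.Icc (-(r : ℤ)) r).image (fun p => p.1 * g ^ p.2),
        dist z (γ • o) ≤ w + 8 * θ := by
    intro h2
    obtain ⟨y, y1, y2⟩ := c.geo.exists_close c.hyp b ξ z
    obtain ⟨h, h3⟩ := c.cocomp y
    have e1 := dist_triangle z y (h • o)
    have e2 := dist_triangle b z (h • o)
    have e3 := gp_lip_base b ξ (h • o) y
    have e4 := dist_eq_gp b ξ y
    rw [dist_comm] at e3
    refine ⟨_, mem h 0 (by linarith) (by linarith) (by simp), ?_⟩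
    rw [zpow_zero, mul_one]
    linarith
  by_cases h2 : ν * ν0⁻¹ = 1
  · rw [mul_inv_eq_one] at h2
    apply easy
    rw [hw, h2]
    linarith
  obtain ⟨v, p, hp, q, hq, g1, g2, g3⟩ := F.greendlinger (by linarith) (by linarith) c.hyp c.geo ξ
    (F.N.mul_mem hν (F.N.inv_mem hν0)) h2
  rw [hξ, ← mul_smul, inv_mul_cancel_right] at g2
  obtain ⟨m, hm, g4⟩ := (F.qc v).exists_gate (F.nonempty v) (show 0 < θ by linarith) b
  have s1 := short G c (b := b) (ξ := ξ) (η := θ) (fun μ hμ => by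
    rw [hξ, ← mul_smul]; exact h0 _ (F.N.mul_mem hμ hν0)) hm hp (by linarith [g4 p hp]) (g1 m hm)
    (by linarith) (by linarith)
  have s2 := short G c (b := b) (ξ := ν • o) (η := 2 * R + θ) (fun μ hμ => by
    have e1 := h1 _ (F.N.mul_mem hμ hν)
    have e2 := dist_triangle b z (ν • o)
    have e3 := dist_triangle_left z ((μ * ν) • o) b
    rw [← mul_smul]; linarith) hm hq (by linarith [g4 q hq]) (g2 m hm)
    (by linarith) (by linarith)
  have s3 := dist_triangle_left p q m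
  have s4 := c.hyp.two_gates (g4 p hp) (g1 m hm) (by linarith)
  rcases c.hyp.three (by linarith) b m q (ν • o) z with h3 | h3 | h3
  · apply easy
    have e1 := dist_eq_gp b ξ m
    have e2 := dist_eq_gp b m z
    have e3 := dist_eq_gp b ξ z
    have e4 := dist_triangle z m ξ
    linarith
  · obtain ⟨a, ha, h4⟩ := F.qc v z m hm q hq
    obtain ⟨h, rfl, h5⟩ := G.line v m hm
    obtain ⟨i, i1, i2⟩ := h5 a ha
    have e1 := dist_triangle b z a
    have e2 := dist_eq_gp b a (h • o)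
    have e3 := g4 a ha
    have e4 := dist_triangle z a ((h * g ^ i) • o)
    have e5 := dist_nonneg (x := b) (y := h • o)
    have e6 := dist_nonneg (x := h • o) (y := a)
    exact ⟨_, mem h i (by linarith) (by linarith) (by linarith), by linarith⟩
  · exfalso
    have e1 := c.hyp.dist_two_gates (g4 q hq) (g2 m hm) (by linarith)
    have e2 := dist_eq_gp q (ν • o) z
    have e3 := dist_eq_gp b (ν • o) z
    have e5 := dist_nonneg (x := b) (y := m)
    have e6 := dist_nonneg (x := q) (y := z)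
    linarith

lemma schur {F : Fam Γ X Y θ (T - θ)} (G : F.Good o g T) (c : Ctx Γ o θ) {R : ℝ} (hR : 0 ≤ R)
    (hT : 1001 * θ + 2 * R ≤ T) {r : ℕ} (hr : 2 * R + 8 * θ ≤ r) {s P : ℝ} (hs : 0 ≤ s)
    (hP : ∀ S : Finset Γ, ∑ γ ∈ S, Real.exp (-(2 * s) * dist o (γ • o)) ≤ P) (b : X) (S : Finset Γ)
    (hS : ∀ γ ∈ S, dist b (γ • o) ≤ R) :
    ∑ γ ∈ S, Real.exp (-s * Metric.infDist (γ • o) ((· • o) '' (F.N : Set Γ))) ≤
      Real.exp (s * (R + 17 * θ)) * ((r + 1) * (c.ball (7 * θ)).card * (2 * r + 1) * P) *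
        Real.exp (-s * Metric.infDist b ((· • o) '' (F.N : Set Γ))) := by
  classical
  have hθ := c.one_le
  have hP0 : 0 ≤ P := by simpa using hP ∅
  obtain ⟨Q, hQ, hQ'⟩ := direction G c hR hT hr b
  set O := (· • o) '' (F.N : Set Γ) with hO
  set K := Real.exp (s * (R + 17 * θ)) * Real.exp (-s * Metric.infDist b O) with hK
  have hK0 : 0 ≤ K := by positivity
  have h1 : ∀ γ ∈ S, Real.exp (-s * Metric.infDist (γ • o) O) ≤
      ∑ γ' ∈ Q, K * Real.exp (-(2 * s) * dist o ((γ'⁻¹ * γ) • o)) := by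
    intro γ hγ
    obtain ⟨ν, hν, h0⟩ := exists_near_min (S := (F.N : Set Γ)) ⟨1, F.N.one_mem⟩
      (fun ν => dist (γ • o) (ν • o)) (fun _ => dist_nonneg) (show 0 < θ by linarith)
    obtain ⟨γ', hγ', h2⟩ := hQ' _ (hS γ hγ) ν hν h0
    refine le_trans ?_ (Finset.single_le_sum (f := fun γ' => K * Real.exp (-(2 * s) *
      dist o ((γ'⁻¹ * γ) • o))) (fun _ _ => by positivity) hγ')
    rw [hK, ← Real.exp_add, ← Real.exp_add, Real.exp_le_exp, mul_smul, dist_inv_smul, dist_comm]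
    have e1 : dist (γ • o) (ν • o) - θ ≤ Metric.infDist (γ • o) O := by
      rw [Metric.le_infDist (show O.Nonempty from ⟨_, 1, F.N.one_mem, rfl⟩)]
      rintro _ ⟨μ, hμ, rfl⟩
      linarith [h0 μ hμ]
    have e2 : Metric.infDist b O ≤ dist b (ν • o) := Metric.infDist_le_dist_of_mem ⟨ν, hν, rfl⟩
    have e3 := dist_eq_gp b (ν • o) (γ • o)
    have e4 := hS γ hγ
    have e5 : Metric.infDist b O + 2 * dist (γ • o) (γ' • o) - (R + 17 * θ) ≤
      Metric.infDist (γ • o) O := by linarith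
    nlinarith
  calc _ ≤ ∑ γ ∈ S, ∑ γ' ∈ Q, K * Real.exp (-(2 * s) * dist o ((γ'⁻¹ * γ) • o)) :=
        Finset.sum_le_sum h1
    _ ≤ ∑ γ' ∈ Q, K * P := by
        rw [Finset.sum_comm]
        refine Finset.sum_le_sum fun γ' _ => ?_
        rw [← Finset.mul_sum]
        refine mul_le_mul_of_nonneg_left ?_ hK0
        have := hP (S.image (fun γ => γ'⁻¹ * γ))
        rwa [Finset.sum_image (fun x _ y _ h => mul_left_cancel h)] at this
    _ ≤ _ := by
        rw [Finset.sum_const, nsmul_eq_mul]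
        have h2 : (Q.card : ℝ) ≤ (r + 1) * (c.ball (7 * θ)).card * (2 * r + 1) := by
          exact_mod_cast hQ
        calc _ ≤ ((r + 1) * (c.ball (7 * θ)).card * (2 * r + 1)) * (K * P) :=
              mul_le_mul_of_nonneg_right h2 (by positivity)
          _ = _ := by rw [hK]; ring

end Fam

end Pool.Agent.Lib.MP_ebddb6_al
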