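import Mathlib

namespace Pool.Agent.Lib.MP_ebddb6_al

/-- any two points are joined by an isometrically parametrised segment -/
def IsGeodesic (X : Type*) [MetricSpace X] : Prop :=
  ∀ x y : X, ∃ f : ℝ → X, f 0 = x ∧ f (dist x y) = y ∧
    ∀ s ∈ Set.Icc 0 (dist x y), ∀ t ∈ Set.Icc 0 (dist x y), dist (f s) (f t) = |s - t|

/-- the Gromov product of `x` and `y` based at `w` -/
noncomputable def gromov {X : Type*} [MetricSpace X] (x y w : X) : ℝ :=
  (dist x w + dist y w - dist x y) / 2

/-- Gromov hyperbolicity (four point condition) -/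
def IsHyperbolic (X : Type*) [MetricSpace X] : Prop :=
  ∃ δ : ℝ, ∀ x y z w : X, min (gromov x y w) (gromov y z w) - δ ≤ gromov x z w

/-- the critical exponent of a group of isometries -/
noncomputable def critExp {X : Type*} [MetricSpace X] (H : Subgroup (X ≃ᵢ X)) (o : X) : ℝ :=
  Filter.limsup
    (fun R : ℝ => Real.log ({h : X ≃ᵢ X | h ∈ H ∧ dist o (h o) ≤ R}.ncard : ℝ) / R) Filter.atTop

end Pool.Agent.Lib.MP_ebddb6_al
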