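import Pool.Agent.Lib.MP_ebddb6_al.Count

set_option linter.unusedSectionVars false

namespace Pool.Agent.Lib.MP_ebddb6_al

open Filter

/-- exponential growth rate of a function -/
noncomputable def ex (a : ℝ → ℝ) : ℝ := limsup (fun R => Real.log (a R) / R) atTop

lemma ev_le {a : ℝ → ℝ} (h1 : ∀ R, 0 ≤ R → 1 ≤ a R) {C t : ℝ}
    (h : ∀ R, 0 ≤ R → a R ≤ C * Real.exp (t * R)) {ε : ℝ} (hε : 0 < ε) :
    ∀ᶠ R in atTop, Real.log (a R) / R ≤ t + ε := by
  have hC : 1 ≤ C := by simpa using (h1 0 le_rfl).trans (h 0 le_rfl)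
  filter_upwards [eventually_gt_atTop 0, eventually_ge_atTop (Real.log C / ε)] with R h2 h3
  rw [div_le_iff₀ h2]
  rw [div_le_iff₀ hε] at h3
  have h4 := Real.log_le_log (by linarith [h1 R h2.le]) (h R h2.le)
  rw [Real.log_mul (by linarith) (Real.exp_pos _).ne', Real.log_exp] at h4
  linarith

lemma ev_nonneg {a : ℝ → ℝ} (h1 : ∀ R, 0 ≤ R → 1 ≤ a R) :
    ∀ᶠ R in atTop, 0 ≤ Real.log (a R) / R := by
  filter_upwards [eventually_ge_atTop 0] with R h2
  exact div_nonneg (Real.log_nonneg (h1 R h2)) h2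

lemma ex_le {a : ℝ → ℝ} (h1 : ∀ R, 0 ≤ R → 1 ≤ a R) {C t : ℝ}
    (h : ∀ R, 0 ≤ R → a R ≤ C * Real.exp (t * R)) : ex a ≤ t :=
  le_of_forall_pos_le_add fun _ hε =>
    limsup_le_of_le (isCoboundedUnder_le_of_eventually_le atTop (ev_nonneg h1)) (ev_le h1 h hε)

lemma exists_bound {a : ℝ → ℝ} (h1 : ∀ R, 0 ≤ R → 1 ≤ a R) (hm : Monotone a) {C t0 : ℝ}
    (h : ∀ R, 0 ≤ R → a R ≤ C * Real.exp (t0 * R)) {t : ℝ} (ht : ex a < t) :
    0 < t ∧ ∃ C, ∀ R, 0 ≤ R → a R ≤ C * Real.exp (t * R) := by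
  have hb : IsBoundedUnder (· ≤ ·) atTop (fun R => Real.log (a R) / R) :=
    isBoundedUnder_of_eventually_le (ev_le h1 h one_pos)
  have h0 : 0 ≤ ex a := le_limsup_of_frequently_le (ev_nonneg h1).frequently hb
  refine ⟨by linarith, ?_⟩
  obtain ⟨R0, hR0⟩ := eventually_atTop.1 (eventually_lt_of_limsup_lt ht hb)
  refine ⟨a (max R0 1), fun R hR => ?_⟩
  have e0 := h1 (max R0 1) (le_trans zero_le_one (le_max_right _ _))
  have e1 : 1 ≤ Real.exp (t * R) := Real.one_le_exp (mul_nonneg (by linarith) hR)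
  rcases le_total R (max R0 1) with h2 | h2
  · nlinarith [hm h2]
  · have h3 := hR0 R ((le_max_left _ _).trans h2)
    have h4 : 0 < R := lt_of_lt_of_le one_pos ((le_max_right _ _).trans h2)
    rw [div_lt_iff₀ h4, Real.log_lt_iff_lt_exp (by linarith [h1 R hR])] at h3
    nlinarith

lemma lin_le_exp {ε : ℝ} (hε : 0 < ε) {A B : ℝ} (hA : 0 ≤ A) (hB : 0 ≤ B) :
    ∃ K, 0 ≤ K ∧ ∀ R, 0 ≤ R → A * R + B ≤ K * Real.exp (ε * R) := by
  refine ⟨A / ε + B, by positivity, fun R hR => ?_⟩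
  have h1 := Real.add_one_le_exp (ε * R)
  have h2 : 0 ≤ ε * R := by positivity
  have h3 : A / ε * (ε * R) = A * R := by field_simp
  have h4 : 0 ≤ A / ε := by positivity
  nlinarith

variable {X : Type*} [PseudoMetricSpace X]
variable {Γ : Type*} [Group Γ] [MulAction Γ X] [IsIsometricSMul Γ X] {o : X} {θ : ℝ}

/-- the orbital counting function of a subgroup -/
noncomputable def cnt (H : Subgroup Γ) (o : X) (R : ℝ) : ℝ :=
  ({h : Γ | h ∈ H ∧ dist o (h • o) ≤ R}.ncard : ℝ)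

open Classical in
lemma Ctx.cnt_eq (c : Ctx Γ o θ) (H : Subgroup Γ) (R : ℝ) :
    cnt H o R = (((c.ball R).filter (· ∈ H)).card : ℝ) := by
  rw [cnt, ← Set.ncard_coe_finset]
  congr 2
  ext h
  simp [c.mem_ball, and_comm]

lemma Ctx.cnt_top (c : Ctx Γ o θ) (R : ℝ) : cnt (⊤ : Subgroup Γ) o R = ((c.ball R).card : ℝ) := by
  rw [c.cnt_eq]; simp

lemma Ctx.one_le_cnt (c : Ctx Γ o θ) (H : Subgroup Γ) (R : ℝ) (hR : 0 ≤ R) : 1 ≤ cnt H o R := by
  rw [c.cnt_eq]
  exact_mod_cast Finset.card_pos.2 ⟨1, by simp [c.mem_ball, hR]⟩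

lemma Ctx.cnt_mono (c : Ctx Γ o θ) (H : Subgroup Γ) : Monotone (cnt H o) := by
  classical
  intro R R' h
  rw [c.cnt_eq, c.cnt_eq]
  refine Nat.cast_le.2 (Finset.card_le_card (Finset.filter_subset_filter _ fun γ hγ => ?_))
  rw [c.mem_ball] at hγ ⊢
  linarith

lemma Ctx.cnt_le (c : Ctx Γ o θ) (H : Subgroup Γ) {φ : X → ℝ} (h0 : ∀ x, 0 ≤ φ x)
    (h1 : ∀ h ∈ H, φ (h • o) = 1) {R t : ℝ} (hR : 0 < R) (ht : 0 ≤ t)
    (h : ∀ (b : X) (S : Finset Γ), (∀ γ ∈ S, dist b (γ • o) ≤ R + 2 * θ) →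
      ∑ γ ∈ S, φ (γ • o) ≤ Real.exp (t * R) * φ b) (R' : ℝ) (hR' : 0 ≤ R') :
    cnt H o R' ≤ Real.exp (2 * (t * R)) * Real.exp (t * R') := by
  classical
  have hθ := c.one_le
  have h2 := c.growth hR.le (Real.exp_pos _).le h ⌈R' / R⌉₊
  have h3 := h1 1 H.one_mem
  rw [one_smul] at h3
  rw [h3, mul_one, ← Real.exp_nat_mul] at h2
  have e1 := Nat.le_ceil (R' / R)
  have e2 := Nat.ceil_lt_add_one (show 0 ≤ R' / R by positivity)
  rw [div_le_iff₀ hR] at e1
  have e3 : (⌈R' / R⌉₊ : ℝ) * R ≤ R' + R := by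
    have := mul_le_mul_of_nonneg_right e2.le hR.le
    rwa [add_mul, div_mul_cancel₀ _ hR.ne', one_mul] at this
  rw [c.cnt_eq, ← Real.exp_add]
  calc _ = ∑ γ ∈ (c.ball R').filter (· ∈ H), φ (γ • o) := by
        rw [Finset.card_eq_sum_ones, Nat.cast_sum]
        exact Finset.sum_congr rfl fun γ hγ => by rw [h1 γ (Finset.mem_filter.1 hγ).2]; simp
    _ ≤ ∑ γ ∈ c.ball (⌈R' / R⌉₊ * R + θ), φ (γ • o) := by
        refine Finset.sum_le_sum_of_subset_of_nonneg (fun γ hγ => ?_) fun _ _ _ => h0 _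
        have := (Finset.mem_filter.1 hγ).1
        rw [c.mem_ball] at this ⊢
        linarith
    _ ≤ _ := h2
    _ ≤ _ := by
        rw [Real.exp_le_exp]
        push_cast
        nlinarith

lemma Ctx.exists_exp (c : Ctx Γ o θ) (H : Subgroup Γ) :
    ∃ C t, ∀ R, 0 ≤ R → cnt H o R ≤ C * Real.exp (t * R) := by
  classical
  have hθ := c.one_le
  refine ⟨_, ((c.ball (1 + 3 * θ)).card : ℝ), c.cnt_le H (φ := fun _ => 1) (fun _ => zero_le_one)
    (fun _ _ => rfl) one_pos (Nat.cast_nonneg _) fun b S hS => ?_⟩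
  obtain ⟨γ0, h0⟩ := c.cocomp b
  have h1 : S.card ≤ (c.ball (1 + 3 * θ)).card := by
    refine Finset.card_le_card_of_injOn (fun γ => γ0⁻¹ * γ) (fun γ hγ => ?_)
      (fun x _ y _ h => mul_left_cancel h)
    have e1 := hS γ hγ
    have e2 := dist_triangle_left (γ0 • o) (γ • o) b
    rw [Finset.mem_coe, c.mem_ball, mul_smul, dist_inv_smul]
    linarith
  have h2 : (S.card : ℝ) ≤ (c.ball (1 + 3 * θ)).card := by exact_mod_cast h1
  have h3 := Real.add_one_le_exp ((c.ball (1 + 3 * θ)).card : ℝ)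
  simp only [Finset.sum_const, nsmul_eq_mul, mul_one]
  linarith

lemma Ctx.exists_bound (c : Ctx Γ o θ) (H : Subgroup Γ) {t : ℝ} (ht : ex (cnt H o) < t) :
    0 < t ∧ ∃ C, ∀ R, 0 ≤ R → cnt H o R ≤ C * Real.exp (t * R) := by
  obtain ⟨C, t0, h⟩ := c.exists_exp H
  exact MP_ebddb6_al.exists_bound (c.one_le_cnt H) (c.cnt_mono H) h ht

lemma Ctx.poincare (c : Ctx Γ o θ) {s : ℝ} (hs : ex (cnt (⊤ : Subgroup Γ) o) < s) :
    ∃ P, ∀ S : Finset Γ, ∑ γ ∈ S, Real.exp (-s * dist o (γ • o)) ≤ P := by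
  classical
  obtain ⟨t, ht1, ht2⟩ := exists_between hs
  obtain ⟨ht0, C, hC⟩ := c.exists_bound ⊤ ht1
  have hC0 : 1 ≤ C := by simpa using (c.one_le_cnt ⊤ 0 le_rfl).trans (hC 0 le_rfl)
  have hq0 : 0 ≤ Real.exp (t - s) := (Real.exp_pos _).le
  have hq1 : Real.exp (t - s) < 1 := by
    rw [← Real.exp_zero]; exact Real.exp_lt_exp.2 (by linarith)
  refine ⟨C * Real.exp t * (1 - Real.exp (t - s))⁻¹, fun S => ?_⟩
  rw [← Finset.sum_fiberwise_of_maps_to (t := S.image (fun γ => ⌊dist o (γ • o)⌋₊))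
    (g := fun γ => ⌊dist o (γ • o)⌋₊) (fun γ hγ => Finset.mem_image_of_mem _ hγ)]
  calc _ ≤ ∑ k ∈ S.image (fun γ => ⌊dist o (γ • o)⌋₊), C * Real.exp t * Real.exp (t - s) ^ k := by
        refine Finset.sum_le_sum fun k _ => ?_
        have h1 : ∀ γ ∈ S.filter (fun γ => ⌊dist o (γ • o)⌋₊ = k),
            Real.exp (-s * dist o (γ • o)) ≤ Real.exp (-s * k) := by
          intro γ hγ
          rw [← (Finset.mem_filter.1 hγ).2, Real.exp_le_exp]
          have := Nat.floor_le (dist_nonneg (x := o) (y := γ • o))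
          nlinarith
        refine (Finset.sum_le_card_nsmul _ _ _ h1).trans ?_
        have h2 : ((S.filter (fun γ => ⌊dist o (γ • o)⌋₊ = k)).card : ℝ) ≤
            (c.ball (k + 1)).card := by
          refine Nat.cast_le.2 (Finset.card_le_card fun γ hγ => ?_)
          rw [c.mem_ball, ← (Finset.mem_filter.1 hγ).2]
          exact (Nat.lt_floor_add_one _).le
        have h3 := hC (k + 1) (by positivity)
        rw [c.cnt_top] at h3
        rw [nsmul_eq_mul]
        calc _ ≤ C * Real.exp (t * (k + 1)) * Real.exp (-s * k) :=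
              mul_le_mul_of_nonneg_right (h2.trans h3) (Real.exp_pos _).le
          _ = _ := by
              rw [← Real.exp_nat_mul, mul_assoc, mul_assoc, ← Real.exp_add, ← Real.exp_add]
              congr 2; ring
    _ ≤ _ := by
        rw [← Finset.mul_sum, ← tsum_geometric_of_lt_one hq0 hq1]
        refine mul_le_mul_of_nonneg_left ?_ (by positivity)
        exact (summable_geometric_of_lt_one hq0 hq1).sum_le_tsum _ fun _ _ => by positivity

lemma Lox.lower {g : Γ} (c : Ctx Γ o θ) (h : Lox o θ g) {n : ℕ} (hn : 1 ≤ n) {N : Subgroup Γ}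
    (hN : N.Normal) (hg : g ^ n ∈ N) : ex (cnt (⊤ : Subgroup Γ) o) / 2 ≤ ex (cnt N o) := by
  classical
  have hθ := c.one_le
  have hl := h.len
  set l := dist o (g • o) with hl'
  set T := dist o (g ^ n • o) with hT
  set B := (c.ball (2 * l)).card with hB
  have key : ∀ R, 0 ≤ R → cnt (⊤ : Subgroup Γ) o R ≤ (4 * B * R + (4 * l + 3) * B) * cnt N o (2 * R + T) := by
    intro R hR
    have h1 := Finset.card_le_mul_card_image_of_maps_to (f := fun k => k * g ^ n * k⁻¹)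
      (s := c.ball R) (t := (c.ball (2 * R + T)).filter (· ∈ N)) (fun k hk => by
        rw [c.mem_ball] at hk
        rw [Finset.mem_filter, c.mem_ball, mul_smul, mul_smul]
        refine ⟨?_, hN.conj_mem _ hg k⟩
        have h2 := dist_triangle4 o (k • o) (k • g ^ n • o) (k • g ^ n • k⁻¹ • o)
        rw [dist_smul, dist_smul, dist_smul, dist_inv_smul, dist_comm (k • o) o] at h2
        linarith) ((2 * ⌈2 * R + 2 * l⌉₊ + 1) * B) (fun b _ => by
        rcases ((c.ball R).filter (fun k => k * g ^ n * k⁻¹ = b)).eq_empty_or_nonempty with h2 | ⟨k0, h2⟩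
        · rw [h2]; simp
        rw [Finset.mem_filter, c.mem_ball] at h2
        set r := ⌈2 * R + 2 * l⌉₊
        have h3 : (c.ball R).filter (fun k => k * g ^ n * k⁻¹ = b) ⊆
            (Finset.Icc (-(r : ℤ)) r ×ˢ c.ball (2 * l)).image (fun p => k0 * g ^ p.1 * p.2) := by
          intro k hk
          rw [Finset.mem_filter, c.mem_ball] at hk
          obtain ⟨i, hi⟩ := h.close c hn (e := k0⁻¹ * k) (Or.inl (by
            have : k0⁻¹ * k * g ^ n * (k0⁻¹ * k)⁻¹ = k0⁻¹ * (k * g ^ n * k⁻¹) * k0 := by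
              simp [mul_assoc]
            rw [this, hk.2, ← h2.2]; simp [mul_assoc]))
          refine Finset.mem_image.2 ⟨(i, (g ^ i)⁻¹ * (k0⁻¹ * k)), ?_, by simp [mul_assoc]⟩
          rw [Finset.mem_product, Finset.mem_Icc, ← abs_le, c.mem_ball, mul_smul, dist_inv_smul,
            dist_comm]
          refine ⟨?_, hi⟩
          have e1 := h.abs_le_dist c i
          have e2 := dist_triangle o ((k0⁻¹ * k) • o) (g ^ i • o)
          have e3 := dist_triangle_left (k0 • o) (k • o) o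
          rw [← dist_inv_smul k0, ← mul_smul] at e3
          have e4 : 2 * R + 2 * l ≤ r := Nat.le_ceil _
          have e5 : |(i : ℝ)| ≤ r := by linarith [hk.1, h2.1]
          exact_mod_cast e5
        refine (Finset.card_le_card h3).trans (Finset.card_image_le.trans ?_)
        rw [Finset.card_product, Int.card_Icc]
        exact Nat.mul_le_mul_right _ (by omega))
    rw [c.cnt_top, c.cnt_eq]
    have h2 : ((c.ball R).card : ℝ) ≤ (2 * ⌈2 * R + 2 * l⌉₊ + 1) * B *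
        ((c.ball (2 * R + T)).filter (· ∈ N)).card := by exact_mod_cast h1
    refine h2.trans (mul_le_mul_of_nonneg_right ?_ (Nat.cast_nonneg _))
    have h3 := Nat.ceil_lt_add_one (show 0 ≤ 2 * R + 2 * l by linarith)
    have h4 : (0 : ℝ) ≤ B := Nat.cast_nonneg _
    nlinarith
  refine le_of_forall_pos_le_add fun ε hε => ?_
  obtain ⟨ht0, C, hC⟩ := c.exists_bound N (t := ex (cnt N o) + ε / 2) (by linarith)
  set t := ex (cnt N o) + ε / 2 with ht
  obtain ⟨K, hK0, hK⟩ := lin_le_exp hε (A := 4 * B) (B := (4 * l + 3) * B) (by positivity)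
    (mul_nonneg (by linarith) (Nat.cast_nonneg _))
  have h1 := ex_le (c.one_le_cnt ⊤) (C := K * C * Real.exp (t * T)) (t := ε + 2 * t) (fun R hR => by
    have e1 := hC (2 * R + T) (by positivity)
    have e2 := c.one_le_cnt N (2 * R + T) (by positivity)
    calc _ ≤ _ := key R hR
      _ ≤ K * Real.exp (ε * R) * (C * Real.exp (t * (2 * R + T))) :=
          mul_le_mul (hK R hR) e1 (by linarith) (by positivity)
      _ = K * C * (Real.exp (ε * R) * Real.exp (t * (2 * R + T))) := by ring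
      _ = _ := by
          rw [mul_assoc (K * C), ← Real.exp_add, ← Real.exp_add]
          congr 2; ring)
  linarith

theorem Ctx.main {δ : ℝ} (c : Ctx Γ o δ) (hpos : 0 < ex (cnt (⊤ : Subgroup Γ) o)) {ε : ℝ}
    (hε : 0 < ε) : ∃ N : Subgroup Γ, N.Normal ∧ Infinite N ∧
      ex (cnt (⊤ : Subgroup Γ) o) / 2 ≤ ex (cnt N o) ∧
      ex (cnt N o) ≤ ex (cnt (⊤ : Subgroup Γ) o) / 2 + ε := by
  classical
  have fin : ∀ H : Subgroup Γ, Finite H → ex (cnt H o) ≤ 0 := by
    intro H hH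
    refine ex_le (c.one_le_cnt H) (C := (H : Set Γ).ncard) fun R _ => ?_
    rw [zero_mul, Real.exp_zero, mul_one, cnt]
    exact Nat.cast_le.2 (Set.ncard_le_ncard (fun _ h => h.1) (Set.toFinite _))
  have : Infinite Γ := by
    by_contra h
    rw [not_infinite_iff_finite] at h
    linarith [fin ⊤ inferInstance]
  obtain ⟨g, h⟩ := c.exists_lox
  obtain ⟨θ, n0, hδθ, hn0, hF⟩ := h.exists_fam c
  have c' := c.mono hδθ
  have hθ := c'.one_le
  set D := ex (cnt (⊤ : Subgroup Γ) o) with hD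
  set s := D / 2 + ε / 4 with hs
  have hs0 : 0 < s := by linarith
  obtain ⟨P, hP⟩ := c'.poincare (s := 2 * s) (by linarith)
  have hP0 : 0 ≤ P := by simpa using hP ∅
  obtain ⟨K, hK0, hK⟩ := lin_le_exp (ε := ε / 4) (by linarith) (A := 4) (B := 24 * θ + 3)
    (by norm_num) (by linarith)
  set B : ℝ := ((c'.ball (7 * θ)).card : ℝ) with hB
  have hB0 : 0 ≤ B := Nat.cast_nonneg _
  set W := Real.exp (s * (19 * θ)) * (K * B * K * P) with hW
  obtain ⟨R, hR0, hR⟩ : ∃ R, 0 < R ∧ W ≤ Real.exp (ε / 4 * R) := by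
    refine ⟨(|W| + 1) / (ε / 4), by positivity, ?_⟩
    rw [mul_div_cancel₀ _ (by linarith)]
    linarith [Real.add_one_le_exp (|W| + 1), le_abs_self W]
  obtain ⟨n1, hn1⟩ := exists_nat_ge (1001 * θ + 2 * (R + 2 * θ))
  have hn1' : 1 ≤ n1 := by
    have : (1 : ℝ) ≤ n1 := by linarith
    exact_mod_cast this
  obtain ⟨F, G, v, hv⟩ := hF n1
  have hT : 1001 * θ + 2 * (R + 2 * θ) ≤ dist o (g ^ (n0 * n1) • o) := by
    have e1 := h.nat_le_dist c (n0 * n1)
    rw [zpow_natCast] at e1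
    have e2 : (n1 : ℝ) ≤ ((n0 * n1 : ℕ) : ℝ) := by exact_mod_cast Nat.le_mul_of_pos_left n1 hn0
    linarith
  have low := h.lower c (Nat.mul_pos hn0 hn1') F.N_normal (Subgroup.subset_closure ⟨v, hv⟩)
  refine ⟨F.N, F.N_normal, ?_, low, ?_⟩
  · by_contra h1
    rw [not_infinite_iff_finite] at h1
    linarith [fin _ h1]
  refine ex_le (c.one_le_cnt _) (c'.cnt_le F.N
    (φ := fun x => Real.exp (-s * Metric.infDist x ((· • o) '' (F.N : Set Γ))))
    (fun _ => (Real.exp_pos _).le) (fun ν hν => ?_) hR0 (by linarith) fun b S hS => ?_)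
  · rw [Metric.infDist_zero_of_mem (Set.mem_image_of_mem (· • o) hν), mul_zero, Real.exp_zero]
  refine (Fam.schur G c' (by linarith) hT (Nat.le_ceil _) hs0.le hP b S hS).trans
    (mul_le_mul_of_nonneg_right ?_ (Real.exp_pos _).le)
  have e1 := Nat.ceil_lt_add_one (show 0 ≤ 2 * (R + 2 * θ) + 8 * θ by linarith)
  have e2 := hK R hR0.le
  set r : ℝ := (⌈2 * (R + 2 * θ) + 8 * θ⌉₊ : ℝ)
  have r0 : 0 ≤ r := Nat.cast_nonneg _
  set E := Real.exp (ε / 4 * R) with hE
  have hE0 : 0 < E := Real.exp_pos _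
  calc _ ≤ Real.exp (s * (R + 2 * θ + 17 * θ)) * ((K * E) * B * (K * E) * P) := by
        gcongr <;> linarith
    _ = Real.exp (s * R) * E * E * W := by
        rw [hW, show s * (R + 2 * θ + 17 * θ) = s * R + s * (19 * θ) by ring, Real.exp_add]
        ring
    _ ≤ Real.exp (s * R) * E * E * E := by gcongr
    _ = _ := by
        rw [hE, ← Real.exp_add, ← Real.exp_add, ← Real.exp_add, hs]
        congr 1; ring

end Pool.Agent.Lib.MP_ebddb6_al
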