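import Mathlib

namespace Pool.Agent.Lib.MP_ebddb6_al

variable {X : Type*} [PseudoMetricSpace X]

/-- Gromov product `(x|y)_w` -/
noncomputable def gp (x y w : X) : ℝ := (dist x w + dist y w - dist x y) / 2

/-- four point condition -/
def Hyp (X : Type*) [PseudoMetricSpace X] (δ : ℝ) : Prop :=
  ∀ x y z w : X, gp x y w ≤ gp x z w + δ ∨ gp y z w ≤ gp x z w + δ

/-- intermediate points exist -/
def Geo (X : Type*) [PseudoMetricSpace X] : Prop :=
  ∀ (x y : X) (t : ℝ), 0 ≤ t → t ≤ dist x y → ∃ m, dist x m = t ∧ dist m y = dist x y - t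

/-- quasi-convexity -/
def QC (α : ℝ) (Y : Set X) : Prop :=
  ∀ x, ∀ y ∈ Y, ∀ y' ∈ Y, ∃ p ∈ Y, dist x p ≤ gp y y' x + α

lemma gp_comm (x y w : X) : gp x y w = gp y x w := by
  simp only [gp, dist_comm x y]; ring

lemma gp_add (x y w : X) : gp x y w + gp w y x = dist x w := by
  simp only [gp, dist_comm w x, dist_comm y x, dist_comm w y]; ring

lemma gp_nonneg (x y w : X) : 0 ≤ gp x y w := by
  have := dist_triangle_right x y w
  simp only [gp]; linarith

lemma gp_le_left (x y w : X) : gp x y w ≤ dist x w := by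
  have := gp_add x y w
  have := gp_nonneg w y x
  linarith

lemma gp_le_right (x y w : X) : gp x y w ≤ dist y w := by
  rw [gp_comm]; exact gp_le_left _ _ _

lemma gp_self (x w : X) : gp x x w = dist x w := by simp [gp]

lemma gp_self_base (x y : X) : gp x y y = 0 := by simp [gp]

lemma gp_lip_left (x x' y w : X) : gp x y w ≤ gp x' y w + dist x x' := by
  have h1 := dist_triangle x x' w
  have h2 := dist_triangle x' x y
  rw [dist_comm x' x] at h2
  simp only [gp]; linarith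

lemma gp_lip_right (x y y' w : X) : gp x y w ≤ gp x y' w + dist y y' := by
  rw [gp_comm x y, gp_comm x y']; exact gp_lip_left _ _ _ _

lemma gp_lip_base (x y w w' : X) : gp x y w ≤ gp x y w' + dist w w' := by
  have h1 := dist_triangle x w' w
  have h2 := dist_triangle y w' w
  rw [dist_comm w' w] at h1 h2
  simp only [gp]; linarith

lemma dist_eq_gp (x y w : X) : dist x y = dist x w + dist w y - 2 * gp x y w := by
  simp only [gp, dist_comm y w]; ring

lemma gp_smul {Γ : Type*} [SMul Γ X] [IsIsometricSMul Γ X] (γ : Γ) (x y w : X) :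
    gp (γ • x) (γ • y) (γ • w) = gp x y w := by
  simp only [gp, dist_smul]

lemma Hyp.mono {δ δ' : ℝ} (h : Hyp X δ) (hδ : δ ≤ δ') : Hyp X δ' := by
  intro x y z w
  rcases h x y z w with h | h
  · left; linarith
  · right; linarith

lemma QC.mono {α α' : ℝ} {Y : Set X} (h : QC α Y) (hα : α ≤ α') : QC α' Y := by
  intro x y hy y' hy'
  obtain ⟨p, hp, h1⟩ := h x y hy y' hy'
  exact ⟨p, hp, by linarith⟩

lemma Hyp.three {δ : ℝ} (h : Hyp X δ) (hδ : 0 ≤ δ) (x y z u w : X) :
    gp x y w ≤ gp x u w + 2 * δ ∨ gp y z w ≤ gp x u w + 2 * δ ∨ gp z u w ≤ gp x u w + 2 * δ := by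
  rcases h x y u w with h1 | h1
  · left; linarith
  · rcases h y z u w with h2 | h2
    · right; left; linarith
    · right; right; linarith

lemma exists_near_min {ι : Type*} {S : Set ι} (hS : S.Nonempty) (f : ι → ℝ) (hf : ∀ i, 0 ≤ f i)
    {ε : ℝ} (hε : 0 < ε) : ∃ i ∈ S, ∀ j ∈ S, f i ≤ f j + ε := by
  have hb : BddBelow (f '' S) := ⟨0, by rintro _ ⟨i, _, rfl⟩; exact hf i⟩
  obtain ⟨_, ⟨i, hi, rfl⟩, h⟩ := exists_lt_of_csInf_lt (hS.image f)
    (lt_add_of_pos_right (sInf (f '' S)) hε)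
  refine ⟨i, hi, fun j hj => ?_⟩
  have := csInf_le hb ⟨j, hj, rfl⟩
  linarith

lemma exists_proj {Y : Set X} (hY : Y.Nonempty) (x : X) {ε : ℝ} (hε : 0 < ε) :
    ∃ p ∈ Y, ∀ y ∈ Y, dist x p ≤ dist x y + ε :=
  exists_near_min hY (fun y => dist x y) (fun _ => dist_nonneg) hε

lemma QC.gate {α ε : ℝ} {Y : Set X} (h : QC α Y) {x p : X} (hp : p ∈ Y)
    (hx : ∀ y ∈ Y, dist x p ≤ dist x y + ε) {y : X} (hy : y ∈ Y) : gp x y p ≤ α + ε := by
  obtain ⟨q, hq, h1⟩ := h x p hp y hy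
  have h2 := hx q hq
  have h3 := gp_add x y p
  linarith

lemma QC.exists_gate {α ε : ℝ} {Y : Set X} (h : QC α Y) (hY : Y.Nonempty) (hε : 0 < ε) (x : X) :
    ∃ p ∈ Y, ∀ y ∈ Y, gp x y p ≤ α + ε := by
  obtain ⟨p, hp, h1⟩ := exists_proj hY x hε
  exact ⟨p, hp, fun y hy => h.gate hp h1 hy⟩

lemma Hyp.two_gates {δ c1 c2 : ℝ} (h : Hyp X δ) {x x' p q : X} (h1 : gp x q p ≤ c1)
    (h2 : gp x' p q ≤ c2) (hd : c1 + c2 + δ < dist p q) : gp x x' p ≤ c1 + δ := by
  have h3 := gp_add p x' q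
  have h4 := gp_comm p x' q
  have h5 := gp_comm q x' p
  rcases h x x' q p with h6 | h6 <;> linarith

lemma Hyp.dist_two_gates {δ c1 c2 : ℝ} (h : Hyp X δ) {x x' p q : X} (h1 : gp x q p ≤ c1)
    (h2 : gp x' p q ≤ c2) (hd : c1 + c2 + δ < dist p q) :
    dist x p + dist p q + dist q x' - 2 * c1 - 2 * c2 - 2 * δ ≤ dist x x' := by
  have h3 := h.two_gates h1 h2 hd
  have h4 := dist_eq_gp x x' p
  have h5 := dist_eq_gp p x' q
  have h6 := gp_comm p x' q
  linarith

lemma Hyp.bg {δ c1 c2 c3 : ℝ} (h : Hyp X δ) {g s out t y : X} (hs : gp g out s ≤ c1)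
    (ht : gp t s out ≤ c2) (hg : gp out y g ≤ c3) (hd : c1 + c2 + c3 + 2 * δ < dist s out)
    (hδ : 0 ≤ δ) : gp t y g ≤ c3 + δ := by
  have h0 := gp_nonneg out y g
  have h1 : gp t g out ≤ c2 + δ := h.two_gates ht hs (by rw [dist_comm]; linarith)
  have h2 := gp_add g t out
  have h3 := gp_add s g out
  have h4 := gp_le_right s g out
  have h5 := gp_comm g t out
  have h6 := gp_comm out g s
  rcases h out t y g with h7 | h7 <;> linarith

lemma dist_le_of_gates {c1 c2 : ℝ} {z p q : X} (h1 : gp z q p ≤ c1) (h2 : gp z p q ≤ c2) :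
    dist p q ≤ c1 + c2 := by
  have h3 := gp_add p z q
  have h4 := gp_comm p z q
  have h5 := gp_comm q z p
  linarith

/-- a point on a geodesic from `o` to `b` at the right distance is close to `z` -/
lemma Hyp.dist_le_of_between {δ t : ℝ} (h : Hyp X δ) {o b y z : X} (h1 : dist o y = t)
    (h2 : dist y b = dist o b - t) : dist z y ≤ gp o b z + |gp z b o - t| + 2 * δ := by
  have e1 := le_abs_self (gp z b o - t)
  have e2 := neg_abs_le (gp z b o - t)
  rcases h o z b y with h3 | h3 <;>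
    simp only [gp, dist_comm b y, dist_comm z o, dist_comm b o, dist_comm b z] at h3 e1 e2 ⊢ <;>
    linarith

lemma Geo.exists_close (hg : Geo X) {δ : ℝ} (h : Hyp X δ) (o b z : X) :
    ∃ y, dist o y + dist y b = dist o b ∧ dist z y ≤ gp o b z + 2 * δ := by
  obtain ⟨y, h1, h2⟩ := hg o b (gp z b o) (gp_nonneg _ _ _)
    ((gp_le_right _ _ _).trans (dist_comm b o).le)
  have := h.dist_le_of_between (z := z) h1 h2
  rw [sub_self, abs_zero] at this
  exact ⟨y, by linarith, by linarith⟩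

/-- neighbourhoods of quasi-convex sets -/
lemma QC.nbhd (hg : Geo X) {θ s : ℝ} (h : Hyp X θ) (hθ : 0 < θ) {W : Set X} (hW : QC s W)
    (hs : 0 ≤ s) : QC (3 * θ) {x | ∃ w ∈ W, dist x w ≤ s} := by
  intro x y hy y' hy'
  by_cases hx : ∃ w ∈ W, dist x w ≤ s
  · refine ⟨x, hx, ?_⟩
    have := gp_nonneg y y' x
    rw [dist_self]; linarith
  push Not at hx
  obtain ⟨p, hp, h1⟩ := exists_proj (Y := {x | ∃ w ∈ W, dist x w ≤ s}) ⟨y, hy⟩ x hθ
  refine ⟨p, hp, ?_⟩
  have key : ∀ w ∈ W, dist x p ≤ dist x w - s + θ := by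
    intro w hw
    obtain ⟨m, hm1, hm2⟩ := hg x w (dist x w - s) (by linarith [hx w hw]) (by linarith)
    have := h1 m ⟨w, hw, by linarith⟩
    linarith
  obtain ⟨w, hw, hyw⟩ := id hy
  obtain ⟨w', hw', hyw'⟩ := id hy'
  have e1 := h1 y hy
  have e2 := h1 y' hy'
  have e3 := key w hw
  have e4 := key w' hw'
  rcases h.three hθ.le y w w' y' x with h2 | h2 | h2
  · have : gp y w x = (dist x y + dist x w - dist y w) / 2 := by
      simp only [gp, dist_comm y x, dist_comm w x]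
    linarith
  · obtain ⟨q, hq, h3⟩ := hW x w hw w' hw'
    have := key q hq
    linarith
  · have : gp w' y' x = (dist x y' + dist x w' - dist y' w') / 2 := by
      simp only [gp, dist_comm y' x, dist_comm w' x, dist_comm w' y']; ring
    linarith

end Pool.Agent.Lib.MP_ebddb6_al
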