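import Pool.Agent.Lib.MP_ebddb6_al.Hyp

set_option linter.unusedSectionVars false

namespace Pool.Agent.Lib.MP_ebddb6_al

variable {X : Type*} [PseudoMetricSpace X]

/-- a proper cocompact action on a geodesic hyperbolic space, with normalised constants -/
structure Ctx (Γ : Type*) [Group Γ] [MulAction Γ X] (o : X) (δ : ℝ) : Prop where
  hyp : Hyp X δ
  geo : Geo X
  one_le : 1 ≤ δ
  cocomp : ∀ x : X, ∃ γ : Γ, dist x (γ • o) ≤ δ
  fin : ∀ r : ℝ, {γ : Γ | dist o (γ • o) ≤ r}.Finite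

variable {Γ : Type*} [Group Γ] [MulAction Γ X] [IsIsometricSMul Γ X] {o : X} {δ : ℝ}

/-- the ball of radius `r` in the group -/
noncomputable def Ctx.ball (c : Ctx Γ o δ) (r : ℝ) : Finset Γ := (c.fin r).toFinset

lemma Ctx.mem_ball (c : Ctx Γ o δ) {r : ℝ} {γ : Γ} : γ ∈ c.ball r ↔ dist o (γ • o) ≤ r := by
  simp [Ctx.ball]

lemma dist_inv_smul (γ : Γ) (x y : X) : dist x (γ⁻¹ • y) = dist (γ • x) y := by
  rw [← dist_smul γ x, smul_inv_smul]

/-- a quantitative form of being loxodromic -/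
structure Lox (o : X) (δ : ℝ) (g : Γ) : Prop where
  ang : gp (g⁻¹ • o) (g • o) o ≤ 4 * δ
  len : 100 * δ ≤ dist o (g • o)

lemma Ctx.exists_lox (c : Ctx Γ o δ) [Infinite Γ] : ∃ g : Γ, Lox o δ g := by
  classical
  have hδ := c.one_le
  set s := 102 * δ with hs
  set M := (c.ball (s + 2 * δ)).card with hM
  obtain ⟨γ0, hγ0⟩ := Infinite.exists_notMem_finset (c.ball ((M + 1) * s))
  rw [c.mem_ball, not_le] at hγ0
  set x := γ0 • o
  have hn : ∀ p : X, ∃ m, s ≤ dist p x → dist p m = s ∧ dist m x = dist p x - s := by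
    intro p
    by_cases h : s ≤ dist p x
    · obtain ⟨m, hm⟩ := c.geo p x s (by linarith) h
      exact ⟨m, fun _ => hm⟩
    · exact ⟨p, fun h' => absurd h' h⟩
  choose nxt hnxt using hn
  let p : ℕ → X := fun i => nxt^[i] o
  have hp : ∀ i, p (i + 1) = nxt (p i) := fun i => Function.iterate_succ_apply' _ _ _
  have h1 : ∀ i ≤ M + 1, dist (p i) x = dist o x - i * s := by
    intro i
    induction i with
    | zero => intro _; simp [p]
    | succ i ih =>
      intro hi
      have h2 := ih (by omega)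
      have h3 : (i : ℝ) ≤ M := by exact_mod_cast (by omega : i ≤ M)
      rw [hp, (hnxt (p i) (by nlinarith)).2, h2]
      push_cast; ring
  have h2 : ∀ i, ∀ k, i + k ≤ M + 1 → dist (p i) (p (i + k)) = k * s := by
    intro i k hk
    apply le_antisymm
    · induction k with
      | zero => simp
      | succ k ih =>
        have h3 := ih (by omega)
        have h4 := h1 (i + k) (by omega)
        have h5 : ((i + k : ℕ) : ℝ) ≤ M := by exact_mod_cast (by omega : i + k ≤ M)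
        have h6 := (hnxt (p (i + k)) (by nlinarith)).1
        have h7 := dist_triangle (p i) (p (i + k)) (p (i + (k + 1)))
        rw [← add_assoc, hp] at h7 ⊢
        push_cast; linarith
    · have h3 := h1 i (by omega)
      have h4 := h1 (i + k) hk
      have h5 := dist_triangle (p i) (p (i + k)) x
      push_cast at h4
      linarith
  choose γ hγ using fun i => c.cocomp (p i)
  have h3 : ∀ i j k, i + j + k ≤ M + 1 → gp (γ i • o) (γ (i + j + k) • o) (γ (i + j) • o) ≤ 3 * δ := by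
    intro i j k h
    have e0 : gp (p i) (p (i + j + k)) (p (i + j)) = 0 := by
      have e1 := h2 i j (by omega)
      have e2 := h2 (i + j) k h
      have e3 := h2 i (j + k) (by omega)
      rw [← add_assoc] at e3
      simp only [gp, e1, e3, dist_comm (p (i + j + k)) (p (i + j)), e2]
      push_cast; ring
    have e1 := gp_lip_left (γ i • o) (p i) (γ (i + j + k) • o) (γ (i + j) • o)
    have e2 := gp_lip_right (p i) (γ (i + j + k) • o) (p (i + j + k)) (γ (i + j) • o)
    have e3 := gp_lip_base (p i) (p (i + j + k)) (γ (i + j) • o) (p (i + j))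
    rw [dist_comm] at e1 e2 e3
    linarith [hγ i, hγ (i + j), hγ (i + j + k)]
  have h4 : ∀ i k, i + k ≤ M + 1 → k * s - 2 * δ ≤ dist (γ i • o) (γ (i + k) • o) ∧
      dist (γ i • o) (γ (i + k) • o) ≤ k * s + 2 * δ := by
    intro i k h
    have e1 := h2 i k h
    have e2 := dist_triangle4 (p i) (γ i • o) (γ (i + k) • o) (p (i + k))
    have e3 := dist_triangle4 (γ i • o) (p i) (p (i + k)) (γ (i + k) • o)
    rw [dist_comm (γ (i + k) • o)] at e2
    rw [dist_comm (γ i • o) (p i)] at e3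
    constructor <;> linarith [hγ i, hγ (i + k)]
  have main : ∀ i j, i < j → j ≤ M → (γ i)⁻¹ * γ (i + 1) = (γ j)⁻¹ * γ (j + 1) →
      ∃ g : Γ, Lox o δ g := by
    intro i j hij hj h
    obtain ⟨k, rfl⟩ := Nat.exists_eq_add_of_lt hij
    refine ⟨(γ i)⁻¹ * γ (i + k + 1), ?_, ?_⟩
    · rw [← gp_smul (γ (i + k + 1))]
      have e1 : γ (i + k + 1) • ((γ i)⁻¹ * γ (i + k + 1))⁻¹ • o = γ i • o := by
        simp [← mul_smul]
      rw [e1]
      have e2 := h3 i (k + 1) 1 (by omega)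
      have e3 := h3 i 1 k (by omega)
      have e4 := (h4 i 1 (by omega)).1
      have e5 := gp_add (γ (i + 1) • o) (γ (i + 1 + k) • o) (γ i • o)
      have e6 : gp (γ (i + k + 1) • ((γ i)⁻¹ * γ (i + k + 1)) • o) (γ (i + (k + 1) + 1) • o)
          (γ (i + k + 1) • o) = gp (γ (i + 1) • o) (γ (i + 1 + k) • o) (γ i • o) := by
        rw [gp_comm, ← gp_smul (γ (i + k + 1) * (γ i)⁻¹) (γ (i + 1) • o)]
        have e7 : γ (i + (k + 1) + 1) = γ (i + k + 1) * (γ i)⁻¹ * γ (i + 1) := by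
          rw [mul_assoc, h]; simp [add_assoc]
        rw [e7, show i + 1 + k = i + k + 1 by omega]
        simp [mul_smul]
      rw [dist_comm] at e5
      rw [← add_assoc] at e2 e6
      push_cast at e4
      rcases c.hyp (γ i • o) (γ (i + k + 1) • ((γ i)⁻¹ * γ (i + k + 1)) • o)
        (γ (i + k + 1 + 1) • o) (γ (i + k + 1) • o) with e8 | e8 <;> linarith
    · rw [mul_smul, dist_inv_smul]
      have e4 := (h4 i (k + 1) (by omega)).1
      have : (0 : ℝ) ≤ k := Nat.cast_nonneg k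
      rw [← add_assoc] at e4
      push_cast at e4
      nlinarith
  obtain ⟨i, hi, j, hj, hne, h⟩ := Finset.exists_ne_map_eq_of_card_lt_of_maps_to
    (s := Finset.range (M + 1)) (t := c.ball (s + 2 * δ)) (by simp [hM])
    (f := fun i => (γ i)⁻¹ * γ (i + 1)) (by
      intro i hi
      have hi' : i < M + 1 := by simpa using hi
      have := (h4 i 1 (by omega)).2
      simp only [Finset.mem_coe, c.mem_ball]
      rw [mul_smul, dist_inv_smul]
      push_cast at this
      linarith)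
  rw [Finset.mem_range] at hi hj
  rcases lt_or_gt_of_ne hne with h' | h'
  · exact main i j h' (by omega) h
  · exact main j i h' (by omega) h.symm

namespace Lox

variable {g : Γ}

lemma inv (h : Lox o δ g) : Lox o δ g⁻¹ :=
  ⟨by rw [inv_inv, gp_comm]; exact h.ang, by rw [dist_inv_smul, dist_comm]; exact h.len⟩

lemma shift (g : Γ) (o : X) (a i : ℤ) : g ^ a • g ^ i • o = g ^ (a + i) • o := by
  rw [← mul_smul, zpow_add]

lemma dist_shift (g : Γ) (o : X) (i j : ℤ) :
    dist (g ^ i • o) (g ^ j • o) = dist o (g ^ (j - i) • o) := by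
  rw [← dist_smul (g ^ i) o, shift, add_sub_cancel]

lemma dist_neg (g : Γ) (o : X) (i : ℤ) : dist o (g ^ (-i) • o) = dist o (g ^ i • o) := by
  rw [zpow_neg, dist_inv_smul, dist_comm]

lemma dist_succ (g : Γ) (o : X) (i : ℤ) :
    dist (g ^ i • o) (g ^ (i + 1) • o) = dist o (g • o) := by
  rw [dist_shift]; simp

lemma one_sided (c : Ctx Γ o δ) (h : Lox o δ g) (k : ℕ) :
    ∀ j : ℤ, gp (g ^ (j - k) • o) (g ^ (j + 1) • o) (g ^ j • o) ≤ 5 * δ := by
  have hδ := c.one_le
  induction k with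
  | zero =>
    intro j
    simp only [Nat.cast_zero, sub_zero]
    rw [gp_comm, gp_self_base]; linarith
  | succ k ih =>
    intro j
    have h1 := ih (j - 1)
    have h2 : gp (g ^ (j - 1) • o) (g ^ (j + 1) • o) (g ^ j • o) ≤ 4 * δ := by
      have := h.ang
      rw [← gp_smul (g ^ j), ← zpow_neg_one, shift, ← mul_smul, ← zpow_add_one] at this
      exact this
    have h3 := gp_add (g ^ (j - 1) • o) (g ^ (j - 1 - k) • o) (g ^ j • o)
    have h4 := dist_succ g o (j - 1)
    rw [sub_add_cancel] at h1 h4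
    rw [gp_comm] at h1
    have e : j - ((k + 1 : ℕ) : ℤ) = j - 1 - k := by push_cast; ring
    rw [e]
    have := h.len
    rcases c.hyp (g ^ (j - 1) • o) (g ^ (j - 1 - k) • o) (g ^ (j + 1) • o) (g ^ j • o) with h5 | h5 <;>
      linarith

lemma left (c : Ctx Γ o δ) (h : Lox o δ g) {i j : ℤ} (hij : i ≤ j) :
    gp (g ^ i • o) (g ^ (j + 1) • o) (g ^ j • o) ≤ 5 * δ := by
  obtain ⟨k, hk⟩ := Int.eq_ofNat_of_zero_le (sub_nonneg.2 hij)
  have := h.one_sided c k j
  rwa [← hk, sub_sub_cancel] at this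

lemma right (c : Ctx Γ o δ) (h : Lox o δ g) {j k : ℤ} (hjk : j ≤ k) :
    gp (g ^ (j - 1) • o) (g ^ k • o) (g ^ j • o) ≤ 5 * δ := by
  have := h.inv.left c (i := -k) (j := -j) (by omega)
  simp only [inv_zpow', neg_neg, neg_add_rev] at this
  rw [gp_comm, show j - 1 = -1 + j by omega]
  exact this

lemma line (c : Ctx Γ o δ) (h : Lox o δ g) {i j k : ℤ} (hij : i ≤ j) (hjk : j ≤ k) :
    gp (g ^ i • o) (g ^ k • o) (g ^ j • o) ≤ 6 * δ := by
  have hδ := c.one_le
  rcases hjk.eq_or_lt with h0 | h0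
  · rw [← h0, gp_self_base]; linarith
  have h1 := h.left c hij
  have h2 := h.right c (j := j + 1) (k := k) (by omega)
  rw [add_sub_cancel_right] at h2
  have h3 := gp_add (g ^ j • o) (g ^ k • o) (g ^ (j + 1) • o)
  have h4 := dist_succ g o j
  have h5 := gp_comm (g ^ (j + 1) • o) (g ^ k • o) (g ^ j • o)
  have := h.len
  rcases c.hyp (g ^ i • o) (g ^ k • o) (g ^ (j + 1) • o) (g ^ j • o) with h6 | h6 <;> linarith

lemma nat_le_dist (c : Ctx Γ o δ) (h : Lox o δ g) (k : ℕ) :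
    (k : ℝ) ≤ dist o (g ^ (k : ℤ) • o) := by
  have hδ := c.one_le
  induction k with
  | zero => simp
  | succ k ih =>
    have h1 := h.left c (i := 0) (j := k) (by omega)
    have h2 := dist_eq_gp (g ^ (0 : ℤ) • o) (g ^ ((k : ℤ) + 1) • o) (g ^ (k : ℤ) • o)
    rw [dist_succ] at h2
    have := h.len
    simp only [zpow_zero, one_smul] at h1 h2
    push_cast
    linarith

lemma abs_le_dist (c : Ctx Γ o δ) (h : Lox o δ g) (i : ℤ) : |(i : ℝ)| ≤ dist o (g ^ i • o) := by
  obtain ⟨k, rfl | rfl⟩ := i.eq_nat_or_neg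
  · simpa using h.nat_le_dist c k
  · rw [dist_neg]; simpa using h.nat_le_dist c k

lemma dist_le (g : Γ) (o : X) (i : ℤ) : dist o (g ^ i • o) ≤ |(i : ℝ)| * dist o (g • o) := by
  have key : ∀ k : ℕ, dist o (g ^ (k : ℤ) • o) ≤ k * dist o (g • o) := by
    intro k
    induction k with
    | zero => simp
    | succ k ih =>
      have h1 := dist_triangle o (g ^ (k : ℤ) • o) (g ^ ((k : ℤ) + 1) • o)
      rw [dist_succ] at h1
      push_cast
      linarith
  obtain ⟨k, rfl | rfl⟩ := i.eq_nat_or_neg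
  · simpa using key k
  · rw [dist_neg]; simpa using key k

lemma add_le (c : Ctx Γ o δ) (h : Lox o δ g) {i j k : ℤ} (hij : i ≤ j) (hjk : j ≤ k) :
    dist (g ^ i • o) (g ^ j • o) + dist (g ^ j • o) (g ^ k • o) - 12 * δ ≤
      dist (g ^ i • o) (g ^ k • o) := by
  have h1 := h.line c hij hjk
  have h2 := dist_eq_gp (g ^ i • o) (g ^ k • o) (g ^ j • o)
  linarith

lemma qc (c : Ctx Γ o δ) (h : Lox o δ g) :
    QC (dist o (g • o)) (Set.range (fun i : ℤ => g ^ i • o)) := by
  have hδ := c.one_le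
  have hl := h.len
  intro x y hy y' hy'
  obtain ⟨_, ⟨j, rfl⟩, hp⟩ := exists_proj ⟨y, hy⟩ x (show 0 < δ by linarith)
  refine ⟨_, ⟨j, rfl⟩, ?_⟩
  simp only at hp ⊢
  have key : ∀ k : ℤ, gp x (g ^ k • o) (g ^ j • o) ≤ dist o (g • o) / 2 + 2 * δ := by
    intro k
    rcases lt_trichotomy k j with h1 | h1 | h1
    · have h2 := hp _ ⟨j - 1, rfl⟩
      have h3 := h.line c (i := k) (j := j - 1) (k := j) (by omega) (by omega)
      have h4 := dist_succ g o (j - 1)
      rw [sub_add_cancel] at h4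
      have h5 := gp_add (g ^ j • o) (g ^ k • o) (g ^ (j - 1) • o)
      have h6 := gp_comm (g ^ j • o) (g ^ k • o) (g ^ (j - 1) • o)
      have h7 := gp_comm (g ^ (j - 1) • o) (g ^ k • o) (g ^ j • o)
      have h8 := dist_eq_gp x (g ^ (j - 1) • o) (g ^ j • o)
      rw [dist_comm] at h4
      simp only at h2
      rcases c.hyp x (g ^ k • o) (g ^ (j - 1) • o) (g ^ j • o) with h9 | h9 <;> linarith
    · rw [h1, gp_self_base]; linarith
    · have h2 := hp _ ⟨j + 1, rfl⟩
      have h3 := h.line c (i := j) (j := j + 1) (k := k) (by omega) (by omega)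
      have h4 := dist_succ g o j
      have h5 := gp_add (g ^ j • o) (g ^ k • o) (g ^ (j + 1) • o)
      have h7 := gp_comm (g ^ (j + 1) • o) (g ^ k • o) (g ^ j • o)
      have h8 := dist_eq_gp x (g ^ (j + 1) • o) (g ^ j • o)
      simp only at h2
      rcases c.hyp x (g ^ k • o) (g ^ (j + 1) • o) (g ^ j • o) with h9 | h9 <;> linarith
  obtain ⟨a, rfl⟩ := hy
  obtain ⟨b, rfl⟩ := hy'
  have h1 := key a
  have h2 := key b
  have h3 := gp_add x (g ^ a • o) (g ^ j • o)
  have h4 := gp_add x (g ^ b • o) (g ^ j • o)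
  have h5 := gp_comm (g ^ a • o) (g ^ j • o) x
  simp only
  rcases c.hyp (g ^ a • o) (g ^ j • o) (g ^ b • o) x with h6 | h6 <;> linarith

lemma close (c : Ctx Γ o δ) (h : Lox o δ g) {N : ℕ} (hN : 1 ≤ N) {e : Γ}
    (he : e * g ^ N * e⁻¹ = g ^ N ∨ e * g ^ N * e⁻¹ = (g ^ N)⁻¹) :
    ∃ i : ℤ, dist (e • o) (g ^ i • o) ≤ 2 * dist o (g • o) := by
  have hδ := c.one_le
  have hl := h.len
  obtain ⟨K, hK⟩ := exists_nat_gt (dist o (e • o) + 8 * δ)
  have hKN : (K : ℝ) ≤ |(((N * K : ℕ) : ℤ) : ℝ)| := by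
    rw [Int.cast_natCast, Nat.abs_cast]
    exact_mod_cast Nat.le_mul_of_pos_left K hN
  set m : ℤ := ((N * K : ℕ) : ℤ) with hm
  have hm0 : 0 ≤ m := Int.natCast_nonneg _
  have h1 := h.line c (i := -m) (j := 0) (k := m) (by omega) hm0
  rw [← gp_smul e, zpow_zero, one_smul] at h1
  have hd1 := h.abs_le_dist c m
  have hd2 : dist o (g ^ (-m) • o) = dist o (g ^ m • o) := dist_neg g o m
  have he' : (e * g ^ m * e⁻¹ = g ^ m ∧ e * g ^ (-m) * e⁻¹ = g ^ (-m)) ∨
      (e * g ^ m * e⁻¹ = g ^ (-m) ∧ e * g ^ (-m) * e⁻¹ = g ^ m) := by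
    have e1 : e * g ^ m * e⁻¹ = (e * g ^ N * e⁻¹) ^ K := by
      rw [conj_pow, hm, zpow_natCast, pow_mul]
    have e2 : e * g ^ (-m) * e⁻¹ = (e * g ^ m * e⁻¹)⁻¹ := by simp [zpow_neg, mul_assoc]
    have e3 : g ^ m = (g ^ N) ^ K := by rw [hm, zpow_natCast, pow_mul]
    rcases he with he | he
    · left; rw [e2, e1, he, zpow_neg, e3]; exact ⟨rfl, rfl⟩
    · right; rw [e2, e1, he, zpow_neg, e3, inv_pow, inv_inv]; exact ⟨rfl, rfl⟩
  have key : ∀ a b : ℤ, e * g ^ a * e⁻¹ = g ^ b → (K : ℝ) ≤ dist o (g ^ a • o) →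
      8 * δ < gp (e • g ^ a • o) (g ^ b • o) (e • o) := by
    intro a b hab ha
    have e1 := gp_lip_right (e • g ^ a • o) (e • g ^ a • o) (g ^ b • o) (e • o)
    rw [gp_self, dist_smul, dist_comm (g ^ a • o)] at e1
    have e2 : e • g ^ a • o = g ^ b • e • o := by
      rw [← hab]; simp [mul_smul]
    rw [e2, dist_smul, dist_comm (e • o) o] at e1
    rw [e2]
    linarith
  have h2 : gp (g ^ (-m) • o) (g ^ m • o) (e • o) ≤ 8 * δ := by
    rcases he' with ⟨e1, e2⟩ | ⟨e1, e2⟩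
    · have k1 := key _ _ e1 (by linarith)
      have k2 := key _ _ e2 (by linarith)
      rw [gp_comm] at k1
      rcases c.hyp.three (by linarith) (e • g ^ (-m) • o) (g ^ (-m) • o) (g ^ m • o) (e • g ^ m • o)
        (e • o) with h3 | h3 | h3 <;> linarith
    · have k1 := key _ _ e1 (by linarith)
      have k2 := key _ _ e2 (by linarith)
      rw [gp_comm] at k1
      rw [gp_comm]
      rcases c.hyp.three (by linarith) (e • g ^ (-m) • o) (g ^ m • o) (g ^ (-m) • o) (e • g ^ m • o)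
        (e • o) with h3 | h3 | h3 <;> linarith
  obtain ⟨_, ⟨i, rfl⟩, h3⟩ := h.qc c (e • o) _ ⟨-m, rfl⟩ _ ⟨m, rfl⟩
  exact ⟨i, by simp only at h3; linarith⟩

lemma conj_abs_le (c : Ctx Γ o δ) (h : Lox o δ g) {e : Γ} {a b : ℤ} (hab : e * g ^ a * e⁻¹ = g ^ b) :
    |b| ≤ |a| := by
  by_contra h0
  obtain ⟨K, hK⟩ := exists_nat_gt (2 * dist o (e • o) + 12 * δ)
  have e1 : e * g ^ (a * K) * e⁻¹ = g ^ (b * K) := by
    rw [zpow_mul, zpow_mul, ← hab, conj_zpow]
  have habs : ∀ a : ℤ, dist o (g ^ (a * K) • o) = dist o (g ^ (|a| * K) • o) := by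
    intro a
    rcases abs_choice a with h | h
    · rw [h]
    · rw [h, neg_mul, dist_neg]
  have h1 : dist o (g ^ (b * K) • o) ≤ dist o (g ^ (a * K) • o) + 2 * dist o (e • o) := by
    rw [← e1, mul_smul, mul_smul]
    have h2 := dist_triangle4 o (e • o) (e • g ^ (a * K) • o) (e • g ^ (a * K) • e⁻¹ • o)
    rw [dist_smul, dist_smul, dist_smul, dist_inv_smul, dist_comm (e • o) o] at h2
    linarith
  have hK0 : (0 : ℤ) ≤ K := Int.natCast_nonneg K
  have h2 := h.add_le c (i := 0) (j := |a| * K) (k := |b| * K) (by positivity)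
    (mul_le_mul_of_nonneg_right (by omega) hK0)
  rw [zpow_zero, one_smul, ← habs, ← habs, dist_shift] at h2
  have h3 := h.abs_le_dist c (|b| * K - |a| * K)
  have h4 : (K : ℤ) ≤ |b| * K - |a| * K := by nlinarith
  have h5 : (K : ℝ) ≤ ((|b| * K - |a| * K : ℤ) : ℝ) := by exact_mod_cast h4
  have h6 := le_abs_self ((|b| * K - |a| * K : ℤ) : ℝ)
  linarith

lemma conj_eq (c : Ctx Γ o δ) (h : Lox o δ g) {e : Γ} {a b : ℤ} (hab : e * g ^ a * e⁻¹ = g ^ b) :
    b = a ∨ b = -a := by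
  have h1 := h.conj_abs_le c hab
  have h2 := h.conj_abs_le c (e := e⁻¹) (a := b) (b := a) (by rw [← hab]; simp [mul_assoc])
  exact abs_eq_abs.1 (le_antisymm h1 h2)

lemma fellow (c : Ctx Γ o δ) (h : Lox o δ g) {e : Γ} {r : ℝ} {j : ℤ}
    (he : ∀ t : ℕ, t ≤ (c.ball r).card → ∃ m : ℤ, dist (e • g ^ (j + t) • o) (g ^ m • o) ≤ r) :
    e * g ^ (c.ball r).card.factorial * e⁻¹ = g ^ (c.ball r).card.factorial ∨
      e * g ^ (c.ball r).card.factorial * e⁻¹ = (g ^ (c.ball r).card.factorial)⁻¹ := by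
  classical
  choose! m hm using he
  set M := (c.ball r).card with hM
  have main : ∀ s t : ℕ, s < t → t ≤ M →
      (g ^ m s)⁻¹ * e * g ^ (j + s) = (g ^ m t)⁻¹ * e * g ^ (j + t) →
      e * g ^ M.factorial * e⁻¹ = g ^ M.factorial ∨ e * g ^ M.factorial * e⁻¹ = (g ^ M.factorial)⁻¹ := by
    intro s t hst ht h1
    obtain ⟨k, rfl⟩ := Nat.exists_eq_add_of_lt hst
    have h2 : e * g ^ ((k + 1 : ℕ) : ℤ) * e⁻¹ = g ^ (m (s + k + 1) - m s) := by
      have e1 : g ^ (j + ((s + k + 1 : ℕ) : ℤ)) = g ^ ((k + 1 : ℕ) : ℤ) * g ^ (j + s) := by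
        rw [← zpow_add]; congr 1; push_cast; ring
      rw [e1, ← mul_assoc] at h1
      have h3 := mul_right_cancel h1
      rw [zpow_sub, mul_inv_eq_iff_eq_mul, mul_assoc, h3]
      simp [mul_assoc]
    obtain ⟨q, hq⟩ := Nat.dvd_factorial (Nat.succ_pos k) (show k + 1 ≤ M by omega)
    have h3 : e * g ^ M.factorial * e⁻¹ = (e * g ^ ((k + 1 : ℕ) : ℤ) * e⁻¹) ^ q := by
      rw [conj_pow, hq, zpow_natCast, pow_mul]
    rcases h.conj_eq c h2 with h4 | h4
    · left; rw [h3, h2, h4, zpow_natCast, hq, pow_mul]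
    · right; rw [h3, h2, h4, zpow_neg, zpow_natCast, hq, pow_mul, inv_pow]
  obtain ⟨s, hs, t, ht, hne, h1⟩ := Finset.exists_ne_map_eq_of_card_lt_of_maps_to
    (s := Finset.range (M + 1)) (t := c.ball r) (by simp [hM])
    (f := fun t => (g ^ m t)⁻¹ * e * g ^ (j + t)) (by
      intro t ht
      have ht' : t < M + 1 := by simpa using ht
      simp only [Finset.mem_coe, c.mem_ball]
      rw [mul_smul, mul_smul, dist_inv_smul, dist_comm]
      exact hm t (by omega))
  rw [Finset.mem_range] at hs ht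
  rcases lt_or_gt_of_ne hne with h' | h'
  · exact main s t h' (by omega) h1
  · exact main t s h' (by omega) h1.symm

end Lox

end Pool.Agent.Lib.MP_ebddb6_al
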