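import Pool.Agent.Lib.MP_ebddb6_al.Defs
import Pool.Agent.Lib.MP_ebddb6_al.Growth

namespace Pool.Agent.Lib.MP_ebddb6_al

open Filter Topology

variable {X : Type*} [MetricSpace X]

lemma finite_of_sep [ProperSpace X] (Γ : Subgroup (X ≃ᵢ X)) {K : Set X} (hK : IsCompact K) {ε : ℝ}
    (hε : 0 < ε) (h : ∀ γ ∈ Γ, (∀ x ∈ K, dist x (γ x) < ε) → γ = 1) (o : X) (R : ℝ) :
    {γ : X ≃ᵢ X | γ ∈ Γ ∧ dist o (γ o) ≤ R}.Finite := by
  obtain ⟨t, -, ht, hKt⟩ := finite_cover_balls_of_compact hK (show 0 < ε / 3 by linarith)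
  have h1 : ∀ y : X, ∃ s : Set X, s.Finite ∧ ∀ z, ∃ w, dist z o ≤ R + dist y o →
      w ∈ s ∧ dist z w < ε / 6 := by
    intro y
    obtain ⟨s, -, hs, h2⟩ := finite_cover_balls_of_compact (isCompact_closedBall o (R + dist y o))
      (show 0 < ε / 6 by linarith)
    refine ⟨s, hs, fun z => ?_⟩
    by_cases hz : dist z o ≤ R + dist y o
    · obtain ⟨w, hw, h3⟩ := Set.mem_iUnion₂.1 (h2 hz)
      exact ⟨w, fun _ => ⟨hw, h3⟩⟩
    · exact ⟨z, fun h' => absurd h' hz⟩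
  choose s hs w hw using h1
  have h2 : ∀ γ : X ≃ᵢ X, dist o (γ o) ≤ R → ∀ y, dist (γ y) o ≤ R + dist y o := by
    intro γ hγ y
    have e1 := dist_triangle (γ y) (γ o) o
    rw [γ.dist_eq, dist_comm (γ o) o] at e1
    linarith
  have := ht.to_subtype
  refine Set.Finite.of_injOn (f := fun γ (y : t) => w y (γ y))
    (t := {f | ∀ y : t, f y ∈ s y}) (fun γ hγ y => (hw y _ (h2 γ hγ.2 y)).1) ?_
    (Set.Finite.pi' fun y : t => hs y)
  intro γ hγ γ' hγ' h3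
  have h4 := h (γ⁻¹ * γ') (Γ.mul_mem (Γ.inv_mem hγ.1) hγ'.1) (fun x hx => by
    obtain ⟨y, hy, h4⟩ := Set.mem_iUnion₂.1 (hKt hx)
    have e0 : w y (γ y) = w y (γ' y) := congrFun h3 ⟨y, hy⟩
    have e1 := (hw y _ (h2 γ hγ.2 y)).2
    have e2 := (hw y _ (h2 γ' hγ'.2 y)).2
    have e3 := dist_triangle_right (γ y) (γ' y) (w y (γ y))
    have e4 := dist_triangle4 (γ x) (γ y) (γ' y) (γ' x)
    rw [Metric.mem_ball] at h4
    rw [γ.dist_eq, γ'.dist_eq, dist_comm y x] at e4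
    rw [← e0] at e2
    rw [← γ.dist_eq, IsometryEquiv.mul_apply, IsometryEquiv.apply_inv_self]
    linarith)
  exact inv_mul_eq_one.1 h4

lemma exists_sep (Γ : Subgroup (X ≃ᵢ X))
    (hd : IsDiscrete ((fun γ : X ≃ᵢ X => (γ : C(X, X))) '' Γ)) :
    ∃ K : Set X, IsCompact K ∧ ∃ ε > 0, ∀ γ ∈ Γ, (∀ x ∈ K, dist x (γ x) < ε) → γ = 1 := by
  obtain ⟨u, hu, h1⟩ := isDiscrete_iff_forall_mem_exists_isOpen.1 hd _ ⟨1, Γ.one_mem, rfl⟩
  have h2 : ((1 : X ≃ᵢ X) : C(X, X)) ∈ u := by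
    have : ((1 : X ≃ᵢ X) : C(X, X)) ∈ u ∩ ((fun γ : X ≃ᵢ X => (γ : C(X, X))) '' Γ) := by
      rw [h1]; rfl
    exact this.1
  have h3 := mem_nhds_uniformity_iff_right.1 (hu.mem_nhds h2)
  obtain ⟨K, V, hK, hV, h4⟩ := (ContinuousMap.mem_compactConvergence_entourage_iff _).1 h3
  obtain ⟨ε, hε, h5⟩ := Metric.mem_uniformity_dist.1 hV
  refine ⟨K, hK, ε, hε, fun γ hγ h6 => ?_⟩
  have h7 : (γ : C(X, X)) ∈ u :=
    h4 (a := (((1 : X ≃ᵢ X) : C(X, X)), (γ : C(X, X)))) (fun x hx => h5 (h6 x hx)) rfl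
  have h8 : (γ : C(X, X)) ∈ u ∩ ((fun γ : X ≃ᵢ X => (γ : C(X, X))) '' Γ) := ⟨h7, γ, hγ, rfl⟩
  rw [h1] at h8
  ext x
  exact congrArg (fun f : C(X, X) => f x) h8

theorem sharp [ProperSpace X] (hgeo : IsGeodesic X) (hhyp : IsHyperbolic X)
    (Γ : Subgroup (X ≃ᵢ X)) (hd : IsDiscrete ((fun γ : X ≃ᵢ X => (γ : C(X, X))) '' Γ))
    (hc : ∃ K : Set X, IsCompact K ∧ ∀ x, ∃ γ ∈ Γ, γ x ∈ K) (o : X) (hpos : 0 < critExp Γ o)
    {ε : ℝ} (hε : 0 < ε) : ∃ N : Subgroup (X ≃ᵢ X), (N ≤ Γ ∧ (N.subgroupOf Γ).Normal ∧ Infinite N) ∧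
      critExp Γ o / 2 ≤ critExp N o ∧ critExp N o ≤ critExp Γ o / 2 + ε := by
  let act : MulAction Γ X :=
    { smul := fun γ x => γ.1 x
      one_smul := fun _ => rfl
      mul_smul := fun _ _ _ => rfl }
  have hs : ∀ (γ : Γ) (x : X), γ • x = γ.1 x := fun _ _ => rfl
  have iso : IsIsometricSMul Γ X := ⟨fun γ => γ.1.isometry⟩
  obtain ⟨δ, hδ⟩ := hhyp
  obtain ⟨K, hK, hc⟩ := hc
  obtain ⟨r, hr⟩ := hK.isBounded.subset_closedBall o
  obtain ⟨K', hK', η, hη, hsep⟩ := exists_sep Γ hd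
  have c : Ctx Γ o (max (max δ r) 1) := by
    refine ⟨Hyp.mono (δ := δ) (fun x y z w => ?_) ((le_max_left _ _).trans (le_max_left _ _)),
      fun x y t h0 h1 => ?_, le_max_right _ _, fun x => ?_, fun R => ?_⟩
    · have := hδ x y z w
      rcases min_choice (gromov x y w) (gromov y z w) with h | h <;> rw [h] at this
      · left; exact sub_le_iff_le_add.1 this
      · right; exact sub_le_iff_le_add.1 this
    · obtain ⟨f, f0, f1, hf⟩ := hgeo x y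
      refine ⟨f t, ?_, ?_⟩
      · have := hf 0 ⟨le_rfl, dist_nonneg⟩ t ⟨h0, h1⟩
        rwa [f0, zero_sub, abs_neg, abs_of_nonneg h0] at this
      · have := hf t ⟨h0, h1⟩ _ ⟨dist_nonneg, le_rfl⟩
        rwa [f1, abs_sub_comm, abs_of_nonneg (sub_nonneg.2 h1)] at this
    · obtain ⟨γ, hγ, h⟩ := hc x
      refine ⟨(⟨γ, hγ⟩ : Γ)⁻¹, ?_⟩
      rw [dist_inv_smul]
      exact le_trans (hr h) ((le_max_right _ _).trans (le_max_left _ _))
    · refine Set.Finite.of_injOn (f := fun γ : Γ => γ.1) ?_ Subtype.val_injective.injOn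
        (finite_of_sep Γ hK' hη hsep o R)
      exact fun γ hγ => And.intro γ.2 hγ
  have key : ∀ H : Subgroup Γ, critExp (H.map Γ.subtype) o = ex (cnt H o) := by
    intro H
    unfold critExp ex cnt
    congr 1
    funext R
    rw [← Set.ncard_image_of_injective {h : Γ | h ∈ H ∧ dist o (h • o) ≤ R} Subtype.val_injective]
    have : {h : X ≃ᵢ X | h ∈ H.map Γ.subtype ∧ dist o (h o) ≤ R} =
        Subtype.val '' {h : Γ | h ∈ H ∧ dist o (h • o) ≤ R} := by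
      ext h
      constructor
      · rintro ⟨⟨k, hk, rfl⟩, h1⟩
        exact ⟨k, ⟨hk, h1⟩, rfl⟩
      · rintro ⟨k, ⟨hk, h1⟩, rfl⟩
        exact ⟨⟨k, hk, rfl⟩, h1⟩
    rw [this]
  have top : critExp Γ o = ex (cnt (⊤ : Subgroup Γ) o) := by
    rw [← key, ← MonoidHom.range_eq_map, Subgroup.range_subtype]
  rw [top] at hpos ⊢
  obtain ⟨N, h1, h2, h3, h4⟩ := c.main hpos hε
  refine ⟨N.map Γ.subtype, ⟨Subgroup.map_subtype_le N, ?_, ?_⟩, by rw [key]; exact ⟨h3, h4⟩⟩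
  · rw [Subgroup.subgroupOf, Subgroup.comap_map_eq_self_of_injective Γ.subtype_injective]
    exact h1
  · exact (N.equivMapOfInjective _ Γ.subtype_injective).toEquiv.infinite_iff.1 h2

end Pool.Agent.Lib.MP_ebddb6_al
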